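import Mathlib

/-!
An abstract maximisation principle for two weakly continuous families of evaluations.
-/

set_option autoImplicit false

open MeasureTheory Filter Topology Set

namespace Pool.Agent.X282.SW

/-- the nonlinearity `x - log (1 + x)` -/
noncomputable def gg (x : ℝ) : ℝ := x - Real.log (1 + x)

/-- its derivative -/
noncomputable def kk (x : ℝ) : ℝ := x / (1 + x)

theorem gg_nonneg {x : ℝ} (hx : 0 ≤ x) : 0 ≤ gg x := by
  unfold gg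
  have := Real.log_le_sub_one_of_pos (show 0 < 1 + x by linarith)
  linarith

theorem gg_le {x : ℝ} (hx : 0 ≤ x) : gg x ≤ x := by
  unfold gg
  have := Real.log_nonneg (show 1 ≤ 1 + x by linarith)
  linarith

theorem kk_nonneg {x : ℝ} (hx : 0 ≤ x) : 0 ≤ kk x := by unfold kk; positivity

theorem kk_le {x : ℝ} (hx : 0 ≤ x) : kk x ≤ 1 := by
  unfold kk
  rw [div_le_one (by linarith)]
  linarith

theorem kk_pos {x : ℝ} (hx : 0 < x) : 0 < kk x := by unfold kk; positivity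

theorem gg_conv {x y : ℝ} (hx : 0 ≤ x) (hy : 0 ≤ y) : kk x * (y - x) ≤ gg y - gg x := by
  unfold gg kk
  have hx1 : 0 < 1 + x := by linarith
  have hy1 : 0 < 1 + y := by linarith
  have h := Real.log_le_sub_one_of_pos (div_pos hy1 hx1)
  rw [Real.log_div hy1.ne' hx1.ne'] at h
  have e : (1 + y) / (1 + x) - 1 = (y - x) - x / (1 + x) * (y - x) := by
    field_simp
    ring
  rw [e] at h
  linarith

theorem gg_zero : gg 0 = 0 := by simp [gg]

theorem gg_pos {x : ℝ} (hx : 0 < x) : 0 < gg x := by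
  have h := gg_conv (x := x / 2) (y := x) (by linarith) hx.le
  have h2 := gg_nonneg (x := x / 2) (by linarith)
  have h3 := kk_pos (x := x / 2) (by linarith)
  have h4 : 0 < kk (x / 2) * (x - x / 2) := mul_pos h3 (by linarith)
  linarith

theorem gg_le_sq {x : ℝ} (hx : 0 ≤ x) : gg x ≤ x * x := by
  have h := gg_conv (x := x) (y := 0) hx le_rfl
  rw [gg_zero] at h
  have h2 : kk x ≤ x := by
    unfold kk
    rw [div_le_iff₀ (by linarith)]
    nlinarith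
  nlinarith

theorem gg_meas : Measurable gg := by
  unfold gg
  exact measurable_id.sub (Real.measurable_log.comp (measurable_const.add measurable_id))

theorem kk_meas : Measurable kk := by
  unfold kk
  exact measurable_id.div (measurable_const.add measurable_id)

theorem gg_contAt {x : ℝ} (hx : 0 ≤ x) : ContinuousAt gg x := by
  unfold gg
  have : (1 + x) ≠ 0 := by linarith
  exact continuousAt_id.sub ((continuousAt_const.add continuousAt_id).log this)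

/-- weak sequential compactness of the unit ball -/
theorem weak_subseq {H : Type*} [NormedAddCommGroup H] [InnerProductSpace ℝ H] [CompleteSpace H]
    [TopologicalSpace.SeparableSpace H] (x : ℕ → H) (hx : ∀ n, ‖x n‖ ≤ 1) :
    ∃ (a : H) (φ : ℕ → ℕ), ‖a‖ ≤ 1 ∧ StrictMono φ ∧
      ∀ l : H →L[ℝ] ℝ, Tendsto (fun n => l (x (φ n))) atTop (𝓝 (l a)) := by
  have h := WeakDual.isSeqCompact_closedBall ℝ H (0 : StrongDual ℝ H) 1
  have hmem : ∀ n, StrongDual.toWeakDual (InnerProductSpace.toDual ℝ H (x n)) ∈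
      WeakDual.toStrongDual ⁻¹' Metric.closedBall (0 : StrongDual ℝ H) 1 := by
    intro n
    simp only [mem_preimage, mem_closedBall_zero_iff]
    have : ‖InnerProductSpace.toDual ℝ H (x n)‖ ≤ 1 := by
      rw [LinearIsometryEquiv.norm_map]; exact hx n
    exact this
  obtain ⟨a, ha, φ, hφ, hlim⟩ := h hmem
  refine ⟨(InnerProductSpace.toDual ℝ H).symm (WeakDual.toStrongDual a), φ, ?_, hφ, ?_⟩
  · rw [LinearIsometryEquiv.norm_map]
    simpa only [mem_preimage, mem_closedBall_zero_iff] using ha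
  · intro l
    set y := (InnerProductSpace.toDual ℝ H).symm l with hy
    have hl : ∀ z, l z = inner ℝ y z := by
      intro z
      rw [hy, InnerProductSpace.toDual_symm_apply]
    have h1 : Tendsto (fun n => (StrongDual.toWeakDual
        (InnerProductSpace.toDual ℝ H (x (φ n)))) y) atTop (𝓝 (a y)) :=
      ((WeakDual.eval_continuous y).tendsto a).comp hlim
    have e1 : ∀ n, l (x (φ n)) = (StrongDual.toWeakDual
        (InnerProductSpace.toDual ℝ H (x (φ n)))) y := by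
      intro n
      rw [hl, real_inner_comm]
      rfl
    have e2 : l ((InnerProductSpace.toDual ℝ H).symm (WeakDual.toStrongDual a)) = a y := by
      rw [hl, real_inner_comm, InnerProductSpace.toDual_symm_apply]
      rfl
    rw [e2]
    exact h1.congr fun n => (e1 n).symm

/-- a family of evaluations -/
structure Ev (H : Type*) [NormedAddCommGroup H] [InnerProductSpace ℝ H] (ν : Measure ℝ)
    (ω B : ℝ → ℝ) (e : ℝ → H →L[ℝ] ℝ) (C : ℝ) : Prop where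
  meas : ∀ h, Measurable fun r => e r h
  bd : ∀ r h, (e r h) ^ 2 ≤ B r * ‖h‖ ^ 2
  int : ∀ h, Integrable (fun r => ω r * (e r h) ^ 2) ν
  le : ∀ h, ∫ r, ω r * (e r h) ^ 2 ∂ν ≤ C * ‖h‖ ^ 2
  nz : ∃ h, ‖h‖ ≤ 1 ∧ ∀ᵐ r ∂ν, e r h ≠ 0

section

variable {H₁ H₂ : Type*} [NormedAddCommGroup H₁] [InnerProductSpace ℝ H₁] [CompleteSpace H₁]
  [TopologicalSpace.SeparableSpace H₁] [NormedAddCommGroup H₂] [InnerProductSpace ℝ H₂]
  [CompleteSpace H₂] [TopologicalSpace.SeparableSpace H₂] {ν : Measure ℝ} {ω B : ℝ → ℝ}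
  {e₁ : ℝ → H₁ →L[ℝ] ℝ} {e₂ : ℝ → H₂ →L[ℝ] ℝ} {C₁ C₂ : ℝ}

/-- the density -/
noncomputable def ww (e₁ : ℝ → H₁ →L[ℝ] ℝ) (e₂ : ℝ → H₂ →L[ℝ] ℝ) (a : H₁) (b : H₂) (r : ℝ) : ℝ :=
  (e₁ r a) ^ 2 + (e₂ r b) ^ 2

omit [CompleteSpace H₁] [TopologicalSpace.SeparableSpace H₁] [CompleteSpace H₂]
  [TopologicalSpace.SeparableSpace H₂] in
theorem ww_nonneg (a : H₁) (b : H₂) (r : ℝ) : 0 ≤ ww e₁ e₂ a b r := by
  unfold ww; positivity

omit [CompleteSpace H₁] [TopologicalSpace.SeparableSpace H₁] [CompleteSpace H₂]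
  [TopologicalSpace.SeparableSpace H₂] in
theorem ww_meas (h₁ : Ev H₁ ν ω B e₁ C₁) (h₂ : Ev H₂ ν ω B e₂ C₂) (a : H₁) (b : H₂) :
    Measurable (ww e₁ e₂ a b) :=
  ((h₁.meas a).pow_const 2).add ((h₂.meas b).pow_const 2)

omit [CompleteSpace H₁] [TopologicalSpace.SeparableSpace H₁] [CompleteSpace H₂]
  [TopologicalSpace.SeparableSpace H₂] in
theorem ww_int (h₁ : Ev H₁ ν ω B e₁ C₁) (h₂ : Ev H₂ ν ω B e₂ C₂) (a : H₁) (b : H₂) :
    Integrable (fun r => ω r * ww e₁ e₂ a b r) ν := by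
  refine ((h₁.int a).add (h₂.int b)).congr (Eventually.of_forall fun r => ?_)
  show ω r * (e₁ r a) ^ 2 + ω r * (e₂ r b) ^ 2 = _
  unfold ww
  ring

omit [CompleteSpace H₁] [TopologicalSpace.SeparableSpace H₁] [CompleteSpace H₂]
  [TopologicalSpace.SeparableSpace H₂] in
theorem gg_int (hω : ∀ r, 0 ≤ ω r) (hωm : Measurable ω) (h₁ : Ev H₁ ν ω B e₁ C₁)
    (h₂ : Ev H₂ ν ω B e₂ C₂) (a : H₁) (b : H₂) :
    Integrable (fun r => ω r * gg (ww e₁ e₂ a b r)) ν := by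
  refine (ww_int h₁ h₂ a b).mono' (hωm.mul (gg_meas.comp (ww_meas h₁ h₂ a b))).aestronglyMeasurable
    (Eventually.of_forall fun r => ?_)
  rw [Real.norm_eq_abs, abs_of_nonneg (mul_nonneg (hω r) (gg_nonneg (ww_nonneg _ _ _)))]
  exact mul_le_mul_of_nonneg_left (gg_le (ww_nonneg _ _ _)) (hω r)

/-- the maximiser -/
theorem exists_max (hω : ∀ r, 0 ≤ ω r) (hωm : Measurable ω) (hB : ∀ r, 0 ≤ B r)
    (htail : ∀ ε : ℝ, 0 < ε → ∃ A : Set ℝ, MeasurableSet A ∧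
      IntegrableOn (fun r => ω r * B r) A ν ∧ ∀ r ∉ A, B r ≤ ε)
    (hC₁ : 0 ≤ C₁) (hC₂ : 0 ≤ C₂)
    (h₁ : Ev H₁ ν ω B e₁ C₁) (h₂ : Ev H₂ ν ω B e₂ C₂) :
    ∃ (a : H₁) (b : H₂), ‖a‖ ≤ 1 ∧ ‖b‖ ≤ 1 ∧ ∀ (a' : H₁) (b' : H₂), ‖a'‖ ≤ 1 → ‖b'‖ ≤ 1 →
      ∫ r, ω r * gg (ww e₁ e₂ a' b' r) ∂ν ≤ ∫ r, ω r * gg (ww e₁ e₂ a b r) ∂ν := by
  set J : H₁ → H₂ → ℝ := fun a b => ∫ r, ω r * gg (ww e₁ e₂ a b r) ∂ν with hJ
  set S : Set ℝ := {x | ∃ (a : H₁) (b : H₂), ‖a‖ ≤ 1 ∧ ‖b‖ ≤ 1 ∧ x = J a b} with hS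
  have hw1 : ∀ (a : H₁) (b : H₂), ‖a‖ ≤ 1 → ‖b‖ ≤ 1 →
      ∫ r, ω r * ww e₁ e₂ a b r ∂ν ≤ C₁ + C₂ := by
    intro a b ha hb
    have e1 : ∫ r, ω r * ww e₁ e₂ a b r ∂ν =
        ∫ r, ω r * (e₁ r a) ^ 2 ∂ν + ∫ r, ω r * (e₂ r b) ^ 2 ∂ν := by
      rw [← integral_add (h₁.int a) (h₂.int b)]
      congr 1
      funext r
      unfold ww
      ring
    rw [e1]
    have h3 := h₁.le a
    have h4 := h₂.le b
    have h5 : ‖a‖ ^ 2 ≤ 1 := pow_le_one₀ (norm_nonneg _) ha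
    have h6 : ‖b‖ ^ 2 ≤ 1 := pow_le_one₀ (norm_nonneg _) hb
    nlinarith
  have hbdd : BddAbove S := by
    refine ⟨C₁ + C₂, ?_⟩
    rintro x ⟨a, b, ha, hb, rfl⟩
    refine le_trans ?_ (hw1 a b ha hb)
    exact integral_mono (gg_int hω hωm h₁ h₂ a b) (ww_int h₁ h₂ a b) fun r =>
      mul_le_mul_of_nonneg_left (gg_le (ww_nonneg _ _ _)) (hω r)
  have hne : S.Nonempty := ⟨J 0 0, 0, 0, by simp, by simp, rfl⟩
  -- maximising sequence
  have hseq : ∀ n : ℕ, ∃ (a : H₁) (b : H₂), ‖a‖ ≤ 1 ∧ ‖b‖ ≤ 1 ∧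
      sSup S - 1 / ((n : ℝ) + 1) < J a b := by
    intro n
    have hpos : 0 < 1 / ((n : ℝ) + 1) := by positivity
    obtain ⟨x, ⟨a, b, ha, hb, rfl⟩, hx⟩ := exists_lt_of_lt_csSup hne
      (show sSup S - 1 / ((n : ℝ) + 1) < sSup S by linarith)
    exact ⟨a, b, ha, hb, hx⟩
  choose a b ha hb hab using hseq
  obtain ⟨a₀, φ, ha₀, hφ, hφl⟩ := weak_subseq a ha
  obtain ⟨b₀, ψ, hb₀, hψ, hψl⟩ := weak_subseq (fun n => b (φ n)) (fun n => hb _)
  refine ⟨a₀, b₀, ha₀, hb₀, fun a' b' ha' hb' => ?_⟩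
  have hle : J a' b' ≤ sSup S := le_csSup hbdd ⟨a', b', ha', hb', rfl⟩
  refine hle.trans ?_
  -- upper semicontinuity
  apply le_of_forall_pos_le_add
  intro δ hδ
  have hCC : 0 < 2 * (C₁ + C₂) + 1 := by linarith
  set ε := δ / (2 * (C₁ + C₂) + 1) with hε
  have hεp : 0 < ε := div_pos hδ hCC
  obtain ⟨A, hA, hAi, hAB⟩ := htail ε hεp
  set θ : ℕ → ℕ := fun n => φ (ψ n) with hθ
  have hθm : StrictMono θ := hφ.comp hψ
  have hw : ∀ r, Tendsto (fun n => ww e₁ e₂ (a (θ n)) (b (θ n)) r) atTop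
      (𝓝 (ww e₁ e₂ a₀ b₀ r)) := by
    intro r
    have t1 := (hφl (e₁ r)).comp hψ.tendsto_atTop
    have t2 := hψl (e₂ r)
    exact (t1.pow 2).add (t2.pow 2)
  have hwB : ∀ n r, ww e₁ e₂ (a (θ n)) (b (θ n)) r ≤ 2 * B r := by
    intro n r
    have h3 := h₁.bd r (a (θ n))
    have h4 := h₂.bd r (b (θ n))
    have h5 : ‖a (θ n)‖ ^ 2 ≤ 1 := pow_le_one₀ (norm_nonneg _) (ha _)
    have h6 : ‖b (θ n)‖ ^ 2 ≤ 1 := pow_le_one₀ (norm_nonneg _) (hb _)
    have h7 := hB r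
    unfold ww
    nlinarith
  have hpt : ∀ n, J (a (θ n)) (b (θ n)) ≤
      ∫ r in A, ω r * gg (ww e₁ e₂ (a (θ n)) (b (θ n)) r) ∂ν + 2 * ε * (C₁ + C₂) := by
    intro n
    have hi := gg_int hω hωm h₁ h₂ (a (θ n)) (b (θ n))
    have hwi := ww_int h₁ h₂ (a (θ n)) (b (θ n))
    have h0 : J (a (θ n)) (b (θ n)) = ∫ r, ω r * gg (ww e₁ e₂ (a (θ n)) (b (θ n)) r) ∂ν := rfl
    rw [h0, ← integral_add_compl hA hi]
    have h3 : ∫ r in Aᶜ, ω r * gg (ww e₁ e₂ (a (θ n)) (b (θ n)) r) ∂ν ≤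
        ∫ r in Aᶜ, 2 * ε * (ω r * ww e₁ e₂ (a (θ n)) (b (θ n)) r) ∂ν := by
      apply setIntegral_mono_on hi.integrableOn (hwi.const_mul _).integrableOn hA.compl
      intro r hr
      have h4 := hAB r hr
      have h7 := ww_nonneg (e₁ := e₁) (e₂ := e₂) (a (θ n)) (b (θ n)) r
      have h5 := gg_le_sq h7
      have h6 := hwB n r
      have h8 : gg (ww e₁ e₂ (a (θ n)) (b (θ n)) r) ≤
          2 * ε * ww e₁ e₂ (a (θ n)) (b (θ n)) r :=
        h5.trans (mul_le_mul_of_nonneg_right (by linarith) h7)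
      calc ω r * gg (ww e₁ e₂ (a (θ n)) (b (θ n)) r)
          ≤ ω r * (2 * ε * ww e₁ e₂ (a (θ n)) (b (θ n)) r) :=
            mul_le_mul_of_nonneg_left h8 (hω r)
        _ = _ := by ring
    have h4 : ∫ r in Aᶜ, 2 * ε * (ω r * ww e₁ e₂ (a (θ n)) (b (θ n)) r) ∂ν ≤
        2 * ε * (C₁ + C₂) := by
      rw [integral_const_mul]
      apply mul_le_mul_of_nonneg_left _ (by positivity)
      exact le_trans (setIntegral_le_integral hwi (Eventually.of_forall fun r =>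
        mul_nonneg (hω r) (ww_nonneg _ _ _))) (hw1 _ _ (ha _) (hb _))
    linarith
  have hlim : Tendsto (fun n => ∫ r in A, ω r * gg (ww e₁ e₂ (a (θ n)) (b (θ n)) r) ∂ν) atTop
      (𝓝 (∫ r in A, ω r * gg (ww e₁ e₂ a₀ b₀ r) ∂ν)) := by
    apply tendsto_integral_of_dominated_convergence (fun r => 2 * (ω r * B r))
    · intro n
      exact (hωm.mul (gg_meas.comp (ww_meas h₁ h₂ _ _))).aestronglyMeasurable
    · exact hAi.const_mul 2
    · intro n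
      refine Eventually.of_forall fun r => ?_
      rw [Real.norm_eq_abs, abs_of_nonneg (mul_nonneg (hω r) (gg_nonneg (ww_nonneg _ _ _)))]
      have h7 := ww_nonneg (e₁ := e₁) (e₂ := e₂) (a (θ n)) (b (θ n)) r
      calc ω r * gg (ww e₁ e₂ (a (θ n)) (b (θ n)) r) ≤ ω r * (2 * B r) :=
            mul_le_mul_of_nonneg_left ((gg_le h7).trans (hwB n r)) (hω r)
        _ = _ := by ring
    · refine Eventually.of_forall fun r => ?_
      exact ((gg_contAt (ww_nonneg _ _ _)).tendsto.comp (hw r)).const_mul _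
  have h1n : Tendsto (fun n => 1 / ((θ n : ℝ) + 1)) atTop (𝓝 0) :=
    tendsto_one_div_add_atTop_nhds_zero_nat.comp hθm.tendsto_atTop
  have hT := (hlim.add_const (2 * ε * (C₁ + C₂))).add h1n
  have hfin : sSup S ≤ ∫ r in A, ω r * gg (ww e₁ e₂ a₀ b₀ r) ∂ν + 2 * ε * (C₁ + C₂) + 0 := by
    refine ge_of_tendsto' hT fun n => ?_
    have h3 := hpt n
    have h4 := hab (θ n)
    linarith
  have hA0 : ∫ r in A, ω r * gg (ww e₁ e₂ a₀ b₀ r) ∂ν ≤ J a₀ b₀ :=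
    setIntegral_le_integral (gg_int hω hωm h₁ h₂ a₀ b₀) (Eventually.of_forall fun r =>
      mul_nonneg (hω r) (gg_nonneg (ww_nonneg _ _ _)))
  have hεδ : 2 * ε * (C₁ + C₂) ≤ δ := by
    have : ε * (2 * (C₁ + C₂) + 1) = δ := by rw [hε]; field_simp
    nlinarith
  linarith

end

/-- the Euler equation -/
theorem euler_aux {H : Type*} [NormedAddCommGroup H] [InnerProductSpace ℝ H] {ν : Measure ℝ}
    {ω B : ℝ → ℝ} {e : ℝ → H →L[ℝ] ℝ} {C : ℝ} (hω : ∀ r, 0 ≤ ω r) (hωm : Measurable ω)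
    (h : Ev H ν ω B e C) (k : ℝ → ℝ) (hk : Measurable k) (hk0 : ∀ r, 0 ≤ k r)
    (hk1 : ∀ r, k r ≤ 1) (a : H) (ha : ‖a‖ ≤ 1)
    (hmax : ∀ a', ‖a'‖ ≤ 1 →
      ∫ r, ω r * (k r * (e r a') ^ 2) ∂ν ≤ ∫ r, ω r * (k r * (e r a) ^ 2) ∂ν)
    (hpos : ∃ a', ‖a'‖ ≤ 1 ∧ 0 < ∫ r, ω r * (k r * (e r a') ^ 2) ∂ν) :
    ∃ m, 0 < m ∧ (∀ φ, m * inner ℝ a φ = ∫ r, ω r * (k r * (e r a * e r φ)) ∂ν) ∧
      ¬ ∀ᵐ r ∂ν, e r a = 0 := by
  set q : H → ℝ := fun φ => ∫ r, ω r * (k r * (e r φ) ^ 2) ∂ν with hq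
  have hqi : ∀ φ, Integrable (fun r => ω r * (k r * (e r φ) ^ 2)) ν := by
    intro φ
    refine (h.int φ).mono' (hωm.mul (hk.mul ((h.meas φ).pow_const 2))).aestronglyMeasurable
      (Eventually.of_forall fun r => ?_)
    have h1 : 0 ≤ (e r φ) ^ 2 := sq_nonneg _
    rw [Real.norm_eq_abs, abs_of_nonneg (mul_nonneg (hω r) (mul_nonneg (hk0 r) h1))]
    apply mul_le_mul_of_nonneg_left _ (hω r)
    have := hk1 r
    nlinarith
  have hci : ∀ φ, Integrable (fun r => ω r * (k r * (e r a * e r φ))) ν := by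
    intro φ
    refine ((h.int a).add (h.int φ)).mono'
      (hωm.mul (hk.mul ((h.meas a).mul (h.meas φ)))).aestronglyMeasurable
      (Eventually.of_forall fun r => ?_)
    show _ ≤ ω r * (e r a) ^ 2 + ω r * (e r φ) ^ 2
    rw [Real.norm_eq_abs, abs_mul, abs_mul, abs_of_nonneg (hω r), abs_of_nonneg (hk0 r), ← mul_add]
    apply mul_le_mul_of_nonneg_left _ (hω r)
    have h1 : |e r a * e r φ| ≤ (e r a) ^ 2 + (e r φ) ^ 2 := by
      rw [abs_le]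
      constructor <;> nlinarith [sq_nonneg (e r a + e r φ), sq_nonneg (e r a - e r φ),
        sq_nonneg (e r a), sq_nonneg (e r φ)]
    have h2 := hk1 r
    have h3 := abs_nonneg (e r a * e r φ)
    nlinarith
  have hexp : ∀ (φ : H) (t : ℝ), q (a + t • φ) =
      q a + 2 * t * (∫ r, ω r * (k r * (e r a * e r φ)) ∂ν) + t ^ 2 * q φ := by
    intro φ t
    have e1 : q (a + t • φ) = ∫ r, (ω r * (k r * (e r a) ^ 2) +
        2 * t * (ω r * (k r * (e r a * e r φ)))) + t ^ 2 * (ω r * (k r * (e r φ) ^ 2)) ∂ν := by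
      simp only [hq]
      congr 1
      funext r
      rw [map_add, map_smul, smul_eq_mul]
      ring
    have i2 : Integrable (fun r => 2 * t * (ω r * (k r * (e r a * e r φ)))) ν :=
      (hci φ).const_mul _
    have i12 : Integrable (fun r => ω r * (k r * (e r a) ^ 2) +
        2 * t * (ω r * (k r * (e r a * e r φ)))) ν := (hqi a).add i2
    rw [e1, integral_add i12 ((hqi φ).const_mul _), integral_add (hqi a) i2,
      integral_const_mul, integral_const_mul]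
  have hq0 : ∀ φ, 0 ≤ q φ := fun φ => integral_nonneg fun r =>
    mul_nonneg (hω r) (mul_nonneg (hk0 r) (sq_nonneg _))
  have hm : 0 < q a := by
    obtain ⟨a', ha', hp⟩ := hpos
    exact hp.trans_le (hmax a' ha')
  have hscale : ∀ (φ : H) (t : ℝ), q (t • φ) = t ^ 2 * q φ := by
    intro φ t
    simp only [hq]
    rw [← integral_const_mul]
    congr 1
    funext r
    rw [map_smul, smul_eq_mul]
    ring
  have hle : ∀ φ, q φ ≤ q a * ‖φ‖ ^ 2 := by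
    intro φ
    by_cases hφ : φ = 0
    · have := hscale φ 0
      rw [zero_smul] at this
      subst hφ
      rw [this]
      simp
    · have hn : 0 < ‖φ‖ := norm_pos_iff.2 hφ
      have h1 := hmax ((‖φ‖)⁻¹ • φ) (by rw [norm_smul, norm_inv, norm_norm, inv_mul_cancel₀ hn.ne'])
      have h2 : q ((‖φ‖)⁻¹ • φ) ≤ q a := h1
      rw [hscale, inv_pow, inv_mul_le_iff₀ (by positivity)] at h2
      linarith
  have han : ‖a‖ ^ 2 = 1 := by
    have h1 := hle a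
    have h2 : ‖a‖ ^ 2 ≤ 1 := pow_le_one₀ (norm_nonneg _) ha
    have h3 : 1 ≤ ‖a‖ ^ 2 := by
      by_contra hcon
      push Not at hcon
      nlinarith
    linarith
  refine ⟨q a, hm, ?_, ?_⟩
  · intro φ
    set c := ∫ r, ω r * (k r * (e r a * e r φ)) ∂ν with hc
    set D := q a * inner ℝ a φ - c with hD
    set P := q a * ‖φ‖ ^ 2 - q φ with hP
    have hP0 : 0 ≤ P := by have := hle φ; linarith
    have hall : ∀ t : ℝ, 0 ≤ 2 * t * D + t ^ 2 * P := by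
      intro t
      have h1 := hle (a + t • φ)
      rw [hexp, norm_add_sq_real, inner_smul_right, norm_smul, mul_pow, han, Real.norm_eq_abs,
        sq_abs] at h1
      rw [hD, hP]
      linarith
    have hP1 : 0 < P + 1 := by linarith
    have h2 := hall (-(D / (P + 1)))
    have e2 : 2 * -(D / (P + 1)) * D + (-(D / (P + 1))) ^ 2 * P =
        -(D ^ 2 * ((P + 2) / (P + 1) ^ 2)) := by
      field_simp
      ring
    rw [e2] at h2
    have h3 : 0 < (P + 2) / (P + 1) ^ 2 := by positivity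
    have h4 : D ^ 2 ≤ 0 := by
      by_contra hcon
      push Not at hcon
      have := mul_pos hcon h3
      linarith
    have h5 : D = 0 := pow_eq_zero_iff (two_ne_zero) |>.1 (le_antisymm h4 (sq_nonneg _))
    linarith
  · intro hae
    have : q a = 0 := by
      simp only [hq]
      rw [integral_eq_zero_of_ae]
      filter_upwards [hae] with r hr
      rw [hr]
      simp
    linarith

section

variable {H₁ H₂ : Type*} [NormedAddCommGroup H₁] [InnerProductSpace ℝ H₁] [CompleteSpace H₁]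
  [TopologicalSpace.SeparableSpace H₁] [NormedAddCommGroup H₂] [InnerProductSpace ℝ H₂]
  [CompleteSpace H₂] [TopologicalSpace.SeparableSpace H₂] {ν : Measure ℝ} {ω B : ℝ → ℝ}
  {e₁ : ℝ → H₁ →L[ℝ] ℝ} {e₂ : ℝ → H₂ →L[ℝ] ℝ} {C₁ C₂ : ℝ}

/-- the two Euler equations -/
theorem main (hω : ∀ r, 0 ≤ ω r) (hωm : Measurable ω) (hωp : ∀ᵐ r ∂ν, 0 < ω r) (hν : ν ≠ 0)
    (hB : ∀ r, 0 ≤ B r)
    (htail : ∀ ε : ℝ, 0 < ε → ∃ A : Set ℝ, MeasurableSet A ∧
      IntegrableOn (fun r => ω r * B r) A ν ∧ ∀ r ∉ A, B r ≤ ε)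
    (hC₁ : 0 ≤ C₁) (hC₂ : 0 ≤ C₂)
    (h₁ : Ev H₁ ν ω B e₁ C₁) (h₂ : Ev H₂ ν ω B e₂ C₂) :
    ∃ (a : H₁) (b : H₂) (m₁ m₂ : ℝ), 0 < m₁ ∧ 0 < m₂ ∧
      (∀ φ, m₁ * inner ℝ a φ = ∫ r, ω r * (kk (ww e₁ e₂ a b r) * (e₁ r a * e₁ r φ)) ∂ν) ∧
      (∀ φ, m₂ * inner ℝ b φ = ∫ r, ω r * (kk (ww e₁ e₂ a b r) * (e₂ r b * e₂ r φ)) ∂ν) ∧
      (¬ ∀ᵐ r ∂ν, e₁ r a = 0) ∧ ¬ ∀ᵐ r ∂ν, e₂ r b = 0 := by
  obtain ⟨a, b, ha, hb, hmax⟩ := exists_max hω hωm hB htail hC₁ hC₂ h₁ h₂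
  set k : ℝ → ℝ := fun r => kk (ww e₁ e₂ a b r) with hk
  have hkm : Measurable k := kk_meas.comp (ww_meas h₁ h₂ a b)
  have hk0 : ∀ r, 0 ≤ k r := fun r => kk_nonneg (ww_nonneg _ _ _)
  have hk1 : ∀ r, k r ≤ 1 := fun r => kk_le (ww_nonneg _ _ _)
  have hki : ∀ (a' : H₁) (b' : H₂), Integrable (fun r => ω r * (k r * ww e₁ e₂ a' b' r)) ν := by
    intro a' b'
    refine (ww_int h₁ h₂ a' b').mono' (hωm.mul (hkm.mul (ww_meas h₁ h₂ a' b'))).aestronglyMeasurable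
      (Eventually.of_forall fun r => ?_)
    have h7 := ww_nonneg (e₁ := e₁) (e₂ := e₂) a' b' r
    rw [Real.norm_eq_abs, abs_of_nonneg (mul_nonneg (hω r) (mul_nonneg (hk0 r) h7))]
    apply mul_le_mul_of_nonneg_left _ (hω r)
    have := hk1 r
    nlinarith
  have hcmp : ∀ (a' : H₁) (b' : H₂), ‖a'‖ ≤ 1 → ‖b'‖ ≤ 1 →
      ∫ r, ω r * (k r * ww e₁ e₂ a' b' r) ∂ν ≤ ∫ r, ω r * (k r * ww e₁ e₂ a b r) ∂ν := by
    intro a' b' ha' hb'
    have h3 := hmax a' b' ha' hb'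
    have h4 : ∫ r, (ω r * (k r * ww e₁ e₂ a' b' r) - ω r * (k r * ww e₁ e₂ a b r)) ∂ν ≤
        ∫ r, (ω r * gg (ww e₁ e₂ a' b' r) - ω r * gg (ww e₁ e₂ a b r)) ∂ν := by
      apply integral_mono ((hki a' b').sub (hki a b))
        ((gg_int hω hωm h₁ h₂ a' b').sub (gg_int hω hωm h₁ h₂ a b))
      intro r
      have h5 := gg_conv (ww_nonneg (e₁ := e₁) (e₂ := e₂) a b r)
        (ww_nonneg (e₁ := e₁) (e₂ := e₂) a' b' r)
      have h6 := mul_le_mul_of_nonneg_left h5 (hω r)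
      show ω r * (kk (ww e₁ e₂ a b r) * ww e₁ e₂ a' b' r) -
        ω r * (kk (ww e₁ e₂ a b r) * ww e₁ e₂ a b r) ≤
        ω r * gg (ww e₁ e₂ a' b' r) - ω r * gg (ww e₁ e₂ a b r)
      linarith
    rw [integral_sub (hki a' b') (hki a b), integral_sub (gg_int hω hωm h₁ h₂ a' b')
      (gg_int hω hωm h₁ h₂ a b)] at h4
    linarith
  have hi1 : ∀ a', Integrable (fun r => ω r * (k r * (e₁ r a') ^ 2)) ν := by
    intro a'
    have := hki a' 0
    simpa [ww] using this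
  have hi2 : ∀ b', Integrable (fun r => ω r * (k r * (e₂ r b') ^ 2)) ν := by
    intro b'
    have := hki 0 b'
    simpa [ww] using this
  have hsplit : ∀ (a' : H₁) (b' : H₂), ∫ r, ω r * (k r * ww e₁ e₂ a' b' r) ∂ν =
      ∫ r, ω r * (k r * (e₁ r a') ^ 2) ∂ν + ∫ r, ω r * (k r * (e₂ r b') ^ 2) ∂ν := by
    intro a' b'
    rw [← integral_add (hi1 a') (hi2 b')]
    congr 1
    funext r
    unfold ww
    ring
  -- `k` is not zero
  have hNB : (ae ν).NeBot := ae_neBot.2 hν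
  obtain ⟨a₁, ha₁, hn₁⟩ := h₁.nz
  obtain ⟨b₁, hb₁, hn₂⟩ := h₂.nz
  have hknz : ¬ ∀ᵐ r ∂ν, k r = 0 := by
    intro hk00
    have hw0 : ∀ᵐ r ∂ν, ww e₁ e₂ a b r = 0 := by
      filter_upwards [hk00] with r hr
      by_contra hne
      have h3 : 0 < ww e₁ e₂ a b r := lt_of_le_of_ne (ww_nonneg _ _ _) (Ne.symm hne)
      exact (kk_pos h3).ne' hr
    have hJ0 : ∫ r, ω r * gg (ww e₁ e₂ a b r) ∂ν = 0 := by
      apply integral_eq_zero_of_ae
      filter_upwards [hw0] with r hr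
      rw [hr, gg_zero]
      simp
    have h3 := hmax a₁ 0 ha₁ (by simp)
    rw [hJ0] at h3
    have h4 : ∀ r, 0 ≤ ω r * gg (ww e₁ e₂ a₁ 0 r) := fun r =>
      mul_nonneg (hω r) (gg_nonneg (ww_nonneg _ _ _))
    have h5 : ∫ r, ω r * gg (ww e₁ e₂ a₁ 0 r) ∂ν = 0 :=
      le_antisymm h3 (integral_nonneg h4)
    rw [integral_eq_zero_iff_of_nonneg h4 (gg_int hω hωm h₁ h₂ a₁ 0)] at h5
    have h6 : ∀ᵐ r ∂ν, False := by
      filter_upwards [h5, hωp, hn₁] with r h5 hp hn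
      have h7 : 0 < ww e₁ e₂ a₁ 0 r := by
        unfold ww
        have : 0 < (e₁ r a₁) ^ 2 := by positivity
        have : 0 ≤ (e₂ r 0) ^ 2 := sq_nonneg _
        linarith
      exact (mul_pos hp (gg_pos h7)).ne' h5
    exact h6.exists.elim fun _ h => h
  have hpos1 : 0 < ∫ r, ω r * (k r * (e₁ r a₁) ^ 2) ∂ν := by
    have h4 : ∀ r, 0 ≤ ω r * (k r * (e₁ r a₁) ^ 2) := fun r =>
      mul_nonneg (hω r) (mul_nonneg (hk0 r) (sq_nonneg _))
    apply lt_of_le_of_ne (integral_nonneg h4)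
    intro h5
    apply hknz
    have h6 := (integral_eq_zero_iff_of_nonneg h4 (hi1 a₁)).1 h5.symm
    filter_upwards [h6, hωp, hn₁] with r h6 hp hn
    by_contra hkne
    have h7 : 0 < k r := lt_of_le_of_ne (hk0 r) (Ne.symm hkne)
    have h8 : 0 < (e₁ r a₁) ^ 2 := by positivity
    exact (mul_pos hp (mul_pos h7 h8)).ne' h6
  have hpos2 : 0 < ∫ r, ω r * (k r * (e₂ r b₁) ^ 2) ∂ν := by
    have h4 : ∀ r, 0 ≤ ω r * (k r * (e₂ r b₁) ^ 2) := fun r =>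
      mul_nonneg (hω r) (mul_nonneg (hk0 r) (sq_nonneg _))
    apply lt_of_le_of_ne (integral_nonneg h4)
    intro h5
    apply hknz
    have h6 := (integral_eq_zero_iff_of_nonneg h4 (hi2 b₁)).1 h5.symm
    filter_upwards [h6, hωp, hn₂] with r h6 hp hn
    by_contra hkne
    have h7 : 0 < k r := lt_of_le_of_ne (hk0 r) (Ne.symm hkne)
    have h8 : 0 < (e₂ r b₁) ^ 2 := by positivity
    exact (mul_pos hp (mul_pos h7 h8)).ne' h6
  obtain ⟨m₁, hm₁, hE₁, hN₁⟩ := euler_aux hω hωm h₁ k hkm hk0 hk1 a ha (fun a' ha' => by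
    have h3 := hcmp a' b ha' hb
    rw [hsplit, hsplit] at h3
    linarith) ⟨a₁, ha₁, hpos1⟩
  obtain ⟨m₂, hm₂, hE₂, hN₂⟩ := euler_aux hω hωm h₂ k hkm hk0 hk1 b hb (fun b' hb' => by
    have h3 := hcmp a b' ha hb'
    rw [hsplit, hsplit] at h3
    linarith) ⟨b₁, hb₁, hpos2⟩
  exact ⟨a, b, m₁, m₂, hm₁, hm₂, hE₁, hE₂, hN₁, hN₂⟩

end

end Pool.Agent.X282.SW
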