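import Mathlib

/-!
Weak solutions in `H¹(ℝⁿ)` of the saturated Schrödinger system.
-/

set_option autoImplicit false

open MeasureTheory
open scoped ContDiff

namespace Pool.Agent.X282.SW

/-- `U` is in `H¹(ℝⁿ)` with weak gradient `G`: both are in `L²`, and
`∫ U ∂ᵢφ = - ∫ Gᵢ φ` for every smooth compactly supported `φ` and every `i`. -/
def IsH1 (n : ℕ) (U : EuclideanSpace ℝ (Fin n) → ℝ)
    (G : EuclideanSpace ℝ (Fin n) → EuclideanSpace ℝ (Fin n)) : Prop :=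
  MemLp U 2 volume ∧ MemLp G 2 volume ∧
    ∀ φ : EuclideanSpace ℝ (Fin n) → ℝ, ContDiff ℝ ∞ φ → HasCompactSupport φ → ∀ i : Fin n,
      ∫ x, U x * fderiv ℝ φ x (EuclideanSpace.single i 1) = -∫ x, G x i * φ x

/-- `(u, v)` is a weak solution in `H¹(ℝⁿ) × H¹(ℝⁿ)` of the system
`-Δu + l₁ u = α u (α u² + β v²) / (1 + s (α u² + β v²))`,
`-Δv + l₂ v = β v (α u² + β v²) / (1 + s (α u² + β v²))`. -/
def IsSol (n : ℕ) (l₁ l₂ α β s : ℝ) (u v : EuclideanSpace ℝ (Fin n) → ℝ) : Prop :=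
  ∃ Gu Gv : EuclideanSpace ℝ (Fin n) → EuclideanSpace ℝ (Fin n), IsH1 n u Gu ∧ IsH1 n v Gv ∧
    ∀ φ : EuclideanSpace ℝ (Fin n) → ℝ, ContDiff ℝ ∞ φ → HasCompactSupport φ →
      (∫ x, (fderiv ℝ φ x (Gu x) + l₁ * u x * φ x) =
        ∫ x, α * u x * (α * u x ^ 2 + β * v x ^ 2) /
          (1 + s * (α * u x ^ 2 + β * v x ^ 2)) * φ x) ∧
      (∫ x, (fderiv ℝ φ x (Gv x) + l₂ * v x * φ x) =
        ∫ x, β * v x * (α * u x ^ 2 + β * v x ^ 2) /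
          (1 + s * (α * u x ^ 2 + β * v x ^ 2)) * φ x)

end Pool.Agent.X282.SW
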