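import Pool.Agent.X282.SW.Grad
import Pool.Agent.X282.SW.Defs

/-!
Assembly.
-/

set_option autoImplicit false

open MeasureTheory Filter Topology Set Metric
open scoped ContDiff

namespace Pool.Agent.X282.SW

theorem isH1 (N : ℕ) (hN : 2 ≤ N) {lam : ℝ} (hlam : 0 < lam) (h : Hs N hN lam) :
    IsH1 (N + 1) (fun x => eH N hN lam ‖x‖ h) (gradF N (h : WithLp 2 (E2 × E2)).fst) := by
  refine ⟨eH_memLp N hN hlam h, gradF_memLp N _, ?_⟩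
  intro φ hφ hc i
  have h1 := Lf_zero N hN hφ hc i (h : WithLp 2 (E2 × E2)).fst
  unfold Lf at h1
  have h2 : (∫ x : Eu (N + 1), ev N hN ‖x‖ (h : WithLp 2 (E2 × E2)).fst * Dv N φ i x) =
      ∫ x : Eu (N + 1), eH N hN lam ‖x‖ h * fderiv ℝ φ x (EuclideanSpace.single i 1) := rfl
  rw [h2] at h1
  linarith

theorem not_zero (N : ℕ) (hN : 2 ≤ N) {lam : ℝ} (hlam : 0 < lam) (h : Hs N hN lam)
    (hne : ¬ ∀ᵐ r ∂nu, eH N hN lam r h = 0) {c : ℝ} (hc : c ≠ 0) :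
    ¬ ∀ᵐ x : Eu (N + 1), eH N hN lam ‖x‖ (c • h) = 0 := by
  intro hae
  apply hne
  obtain ⟨C, hC, hCI⟩ := integralRad N
  have h1 : ∫ x : Eu (N + 1), (eH N hN lam ‖x‖ h) ^ 2 = 0 := by
    apply integral_eq_zero_of_ae
    filter_upwards [hae] with x hx
    rw [map_smul, smul_eq_mul] at hx
    have := (mul_eq_zero.1 hx).resolve_left hc
    rw [this]
    simp
  rw [hCI (fun r => (eH N hN lam r h) ^ 2)] at h1
  have h2 := (mul_eq_zero.1 h1).resolve_left hC.ne'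
  rw [integral_eq_zero_iff_of_nonneg (fun r => mul_nonneg (om_nonneg N r) (sq_nonneg _))
    ((evH N hN hlam).int h)] at h2
  filter_upwards [h2, ae_restrict_mem measurableSet_Ioi] with r hr hr0
  have h3 := (mul_eq_zero.1 hr).resolve_left (om_pos N hr0).ne'
  exact pow_eq_zero_iff (two_ne_zero) |>.1 h3

theorem final (N : ℕ) (hN : 2 ≤ N) {l₁ l₂ s : ℝ} (h₁ : 0 < l₁) (h₂ : 0 < l₂) (hs : 0 < s) :
    ∃ α β : ℝ, 0 < α ∧ 0 < β ∧ ∃ u v : EuclideanSpace ℝ (Fin (N + 1)) → ℝ,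
      IsSol (N + 1) l₁ l₂ α β s u v ∧ (¬ ∀ᵐ x, u x = 0) ∧ ¬ ∀ᵐ x, v x = 0 := by
  obtain ⟨a, b, m₁, m₂, hm₁, hm₂, hE₁, hE₂, hn₁, hn₂⟩ := radial N hN h₁ h₂
  set k : ℝ → ℝ := fun r => kk (ww (eH N hN l₁) (eH N hN l₂) a b r) with hk
  have hkm : Measurable k := kk_meas.comp (ww_meas (evH N hN h₁) (evH N hN h₂) a b)
  have hk0 : ∀ r, 0 ≤ k r := fun r => kk_nonneg (ww_nonneg _ _ _)
  have hk1 : ∀ r, k r ≤ 1 := fun r => kk_le (ww_nonneg _ _ _)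
  set c₁ := Real.sqrt m₁ / s with hc₁
  set c₂ := Real.sqrt m₂ / s with hc₂
  have hc₁p : 0 < c₁ := div_pos (Real.sqrt_pos.2 hm₁) hs
  have hc₂p : 0 < c₂ := div_pos (Real.sqrt_pos.2 hm₂) hs
  have q₁ : c₁ ^ 2 = m₁ / s ^ 2 := by rw [hc₁, div_pow, Real.sq_sqrt hm₁.le]
  have q₂ : c₂ ^ 2 = m₂ / s ^ 2 := by rw [hc₂, div_pow, Real.sq_sqrt hm₂.le]
  have hE₁' : ∀ φ : Hs N hN l₁, m₁ * inner ℝ (c₁ • a) φ =
      ∫ r, om N r * (k r * (eH N hN l₁ r (c₁ • a) * eH N hN l₁ r φ)) ∂nu := by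
    intro φ
    have e0 : inner ℝ (c₁ • a) φ = c₁ * inner ℝ a φ := real_inner_smul_left a φ c₁
    rw [e0]
    have e1 : m₁ * (c₁ * inner ℝ a φ) = c₁ * (m₁ * inner ℝ a φ) := by ring
    rw [e1, hE₁, ← integral_const_mul]
    congr 1
    funext r
    rw [map_smul, smul_eq_mul]
    ring
  have hE₂' : ∀ φ : Hs N hN l₂, m₂ * inner ℝ (c₂ • b) φ =
      ∫ r, om N r * (k r * (eH N hN l₂ r (c₂ • b) * eH N hN l₂ r φ)) ∂nu := by
    intro φ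
    have e0 : inner ℝ (c₂ • b) φ = c₂ * inner ℝ b φ := real_inner_smul_left b φ c₂
    rw [e0]
    have e1 : m₂ * (c₂ * inner ℝ b φ) = c₂ * (m₂ * inner ℝ b φ) := by ring
    rw [e1, hE₂, ← integral_const_mul]
    congr 1
    funext r
    rw [map_smul, smul_eq_mul]
    ring
  -- the pointwise identity
  have hw : ∀ r, s / m₁ * (eH N hN l₁ r (c₁ • a)) ^ 2 + s / m₂ * (eH N hN l₂ r (c₂ • b)) ^ 2 =
      ww (eH N hN l₁) (eH N hN l₂) a b r / s := by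
    intro r
    rw [map_smul, map_smul, smul_eq_mul, smul_eq_mul, mul_pow, mul_pow, q₁, q₂]
    unfold ww
    field_simp
  have hkw : ∀ r, k r = s * (ww (eH N hN l₁) (eH N hN l₂) a b r / s) /
      (1 + s * (ww (eH N hN l₁) (eH N hN l₂) a b r / s)) := by
    intro r
    rw [mul_div_cancel₀ _ hs.ne']
    rfl
  refine ⟨s / m₁, s / m₂, div_pos hs hm₁, div_pos hs hm₂, fun x => eH N hN l₁ ‖x‖ (c₁ • a),
    fun x => eH N hN l₂ ‖x‖ (c₂ • b), ⟨_, _, isH1 N hN h₁ (c₁ • a), isH1 N hN h₂ (c₂ • b), ?_⟩,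
    not_zero N hN h₁ a hn₁ hc₁p.ne', not_zero N hN h₂ b hn₂ hc₂p.ne'⟩
  intro φ hφ hcs
  constructor
  · rw [weakEq N hN h₁ (c₁ • a) k hkm hk0 hk1 hm₁ hE₁' φ hφ hcs]
    congr 1
    funext x
    rw [hw, hkw]
    ring
  · rw [weakEq N hN h₂ (c₂ • b) k hkm hk0 hk1 hm₂ hE₂' φ hφ hcs]
    congr 1
    funext x
    rw [hw, hkw]
    ring

end Pool.Agent.X282.SW
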