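import Pool.Agent.X282.SW.WeakEq

/-!
The weak gradient of a radial function of the energy space.
-/

set_option autoImplicit false

open MeasureTheory Filter Topology Set Metric
open scoped ContDiff

namespace Pool.Agent.X282.SW

/-- evaluation of an element given by a smooth derivative -/
theorem ev_deriv (N : ℕ) (hN : 2 ≤ N) (ψ ψ' : ℝ → ℝ)
    (h1 : ∀ t, 0 < t → HasDerivAt ψ (ψ' t) t) (h2 : Tendsto ψ atTop (𝓝 0))
    (m1 : MemLp (fun t => rho N t * ψ' t) 2 nu) (r : ℝ) (hr : 0 < r) :
    ev N hN r (m1.toLp _) = ψ r := by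
  have hzc : ((m1.toLp _ : E2) : ℝ → ℝ) =ᵐ[nu] fun t => rho N t * ψ' t := m1.coeFn_toLp
  have e1 : ev N hN r (m1.toLp _) = ∫ t, (Ioi r).indicator (fun t => -ψ' t) t ∂nu := by
    rw [ev_apply]
    apply integral_congr_ae
    filter_upwards [hzc, ae_restrict_mem measurableSet_Ioi] with t ht ht0
    rw [ht]
    unfold ker
    by_cases h : r < t
    · have hrho := rho_pos N ht0
      rw [if_pos ⟨hr, h⟩, indicator_of_mem (show t ∈ Ioi r from h)]
      field_simp
    · rw [if_neg (fun hh => h hh.2), indicator_of_notMem (show t ∉ Ioi r from h)]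
      simp
  have hsub : Ioi r ⊆ Ioi (0 : ℝ) := Ioi_subset_Ioi hr.le
  have hint : IntegrableOn ψ' (Ioi r) := by
    have h3 : Integrable (fun t => ker N r t * (rho N t * ψ' t)) nu :=
      (ker_memLp N hN r).integrable_mul m1
    have h3' : IntegrableOn (fun t => ker N r t * (rho N t * ψ' t)) (Ioi (0 : ℝ)) volume := h3
    have h4 : IntegrableOn (fun t => ker N r t * (rho N t * ψ' t)) (Ioi r) :=
      h3'.mono_set hsub
    refine h4.neg.congr ?_
    filter_upwards [ae_restrict_mem measurableSet_Ioi] with t ht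
    have ht0 : 0 < t := hr.trans ht
    have hrho := rho_pos N ht0
    show -(ker N r t * (rho N t * ψ' t)) = ψ' t
    unfold ker
    rw [if_pos ⟨hr, ht⟩]
    field_simp
  rw [e1, integral_indicator measurableSet_Ioi, Measure.restrict_restrict measurableSet_Ioi,
    inter_eq_left.2 hsub, integral_neg,
    integral_Ioi_of_hasDerivAt_of_tendsto (h1 r hr).continuousAt.continuousWithinAt
      (fun t ht => h1 t (hr.trans ht)) hint h2]
  ring

theorem hasFDerivAt_nrm {n : ℕ} {x : Eu n} (hx : x ≠ 0) :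
    HasFDerivAt (fun y : Eu n => ‖y‖) ((‖x‖)⁻¹ • innerSL ℝ x) x := by
  have hn : 0 < ‖x‖ := norm_pos_iff.2 hx
  have h1 := (hasStrictFDerivAt_norm_sq x).hasFDerivAt
  have h2 := h1.sqrt (by positivity)
  have e1 : (fun y : Eu n => √(‖y‖ ^ 2)) = fun y => ‖y‖ := by
    funext y
    exact Real.sqrt_sq (norm_nonneg _)
  rw [e1] at h2
  refine h2.congr_fderiv ?_
  rw [Real.sqrt_sq hn.le]
  ext v
  simp only [ContinuousLinearMap.smul_apply, smul_eq_mul, nsmul_eq_mul]
  push_cast
  field_simp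

/-- the composite of a function with vanishing derivative at zero and the norm -/
theorem hasFDerivAt_rad {n : ℕ} {W η : ℝ → ℝ} (hW : ∀ r, HasDerivAt W (η r) r) (h0 : η 0 = 0)
    (x : Eu n) : HasFDerivAt (fun y : Eu n => W ‖y‖) ((η ‖x‖ / ‖x‖) • innerSL ℝ x) x := by
  by_cases hx : x = 0
  · subst hx
    rw [norm_zero, h0, zero_div, zero_smul]
    have h1 := hW 0
    rw [h0, hasDerivAt_iff_isLittleO] at h1
    rw [hasFDerivAt_iff_isLittleO]
    have h2 : Tendsto (fun y : Eu n => ‖y‖) (𝓝 0) (𝓝 0) := by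
      have := (continuous_norm (E := Eu n)).tendsto 0
      rwa [norm_zero] at this
    have h3 := h1.comp_tendsto h2
    simp only [Function.comp_def, sub_zero, smul_zero] at h3
    simp only [norm_zero, ContinuousLinearMap.zero_apply, sub_zero]
    exact h3.trans_isBigO (Asymptotics.isBigO_norm_left.2 (Asymptotics.isBigO_refl _ _))
  · have h1 := (hW ‖x‖).comp_hasFDerivAt x (hasFDerivAt_nrm hx)
    refine h1.congr_fderiv ?_
    rw [smul_smul, div_eq_mul_inv]

section

variable (N : ℕ) (hN : 2 ≤ N) {Φ : Eu (N + 1) → ℝ} (hΦ : ContDiff ℝ ∞ Φ)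
  (hc : HasCompactSupport Φ) (i : Fin (N + 1))

/-- the directional derivative of the test function -/
noncomputable def Dv (N : ℕ) (Φ : Eu (N + 1) → ℝ) (i : Fin (N + 1)) (x : Eu (N + 1)) : ℝ :=
  fderiv ℝ Φ x (EuclideanSpace.single i 1)

include hΦ in
theorem Dv_cont : Continuous (Dv N Φ i) := by
  unfold Dv
  exact (hΦ.continuous_fderiv (by simp)).clm_apply continuous_const

include hc in
theorem Dv_supp : HasCompactSupport (Dv N Φ i) := by
  have hfs : HasCompactSupport (fderiv ℝ Φ) := hc.fderiv (𝕜 := ℝ)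
  apply hfs.mono'
  intro x hx
  apply subset_tsupport
  intro h
  apply hx
  unfold Dv
  rw [h]
  rfl

theorem Bf_meas : Measurable (Bf N) := by
  unfold Bf
  exact Measurable.ite measurableSet_Ioi (by fun_prop) measurable_const

include hN in
theorem Bf_loc (R : ℝ) : Integrable (fun x : Eu (N + 1) => (Iic R).indicator (Bf N) ‖x‖) := by
  apply intRad N (f := (Iic R).indicator (Bf N))
  have h1 : IntegrableOn (fun r => om N r * Bf N r) (Iic R) nu := by
    rw [IntegrableOn, Measure.restrict_restrict measurableSet_Iic]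
    refine Measure.integrableOn_of_bounded (M := |R|) ?_
      ((om_meas N).mul (Bf_meas N)).aestronglyMeasurable ?_
    · have h2 : Iic R ∩ Ioi 0 = Ioc 0 R := by ext; simp [and_comm]
      rw [h2, Real.volume_Ioc]
      exact ENNReal.ofReal_ne_top
    · filter_upwards [ae_restrict_mem (measurableSet_Iic.inter measurableSet_Ioi)] with t ht
      have ht0 : 0 < t := ht.2
      have ht1 : t ≤ R := ht.1
      rw [om_eq N ht0]
      unfold Bf
      rw [if_pos ht0, Real.norm_eq_abs, abs_of_nonneg (by positivity)]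
      have e : t ^ N * (t ^ (N - 1))⁻¹ = t := by
        have h1 : t ^ N = t ^ (N - 1) * t := by
          rw [← pow_succ]; congr 1; omega
        rw [h1]
        field_simp
      rw [e]
      exact ht1.trans (le_abs_self R)
  have h2 := (integrable_indicator_iff measurableSet_Iic).2 h1
  refine h2.congr (Eventually.of_forall fun r => ?_)
  by_cases hr : r ∈ Iic R
  · simp only [indicator_of_mem hr]
  · simp only [indicator_of_notMem hr, mul_zero]

include hN hΦ hc in
theorem S_int : Integrable (fun x : Eu (N + 1) => (1 + Bf N ‖x‖) * |Dv N Φ i x|) := by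
  have hDc := Dv_cont N hΦ i
  have hDs := Dv_supp N hc i
  obtain ⟨R, hR⟩ := hDs.isCompact.isBounded.subset_closedBall (0 : Eu (N + 1))
  obtain ⟨M, hM⟩ := hDc.bounded_above_of_compact_support hDs
  have h1 : Integrable (Dv N Φ i) := hDc.integrable_of_hasCompactSupport hDs
  have h2 := (h1.norm).add ((Bf_loc N hN R).const_mul M)
  refine h2.mono' ((measurable_const.add ((Bf_meas N).comp measurable_norm)).mul
    hDc.measurable.abs).aestronglyMeasurable (Eventually.of_forall fun x => ?_)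
  show _ ≤ ‖Dv N Φ i x‖ + M * (Iic R).indicator (Bf N) ‖x‖
  have hB := Bf_nonneg N ‖x‖
  rw [Real.norm_eq_abs, abs_mul, abs_abs, abs_of_nonneg (by linarith), Real.norm_eq_abs, add_mul,
    one_mul]
  by_cases hx : ‖x‖ ≤ R
  · rw [indicator_of_mem (show ‖x‖ ∈ Iic R from hx)]
    have := hM x
    rw [Real.norm_eq_abs] at this
    nlinarith
  · have h3 : Dv N Φ i x = 0 := by
      apply image_eq_zero_of_notMem_tsupport
      intro hmem
      apply hx
      have := hR hmem
      rwa [mem_closedBall_zero_iff] at this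
    rw [indicator_of_notMem (show ‖x‖ ∉ Iic R from hx), h3]
    simp

theorem ev_le (z : E2) (r : ℝ) (d : ℝ) :
    |ev N hN r z * d| ≤ (1 + ‖z‖ ^ 2) * ((1 + Bf N r) * |d|) := by
  rw [abs_mul, ← mul_assoc]
  apply mul_le_mul_of_nonneg_right _ (abs_nonneg _)
  have h1 := ev_bd N hN r z
  have h2 := Bf_nonneg N r
  have h3 : |ev N hN r z| ≤ 1 + (ev N hN r z) ^ 2 := by
    rw [← sq_abs]
    nlinarith [sq_nonneg (|ev N hN r z| - 1), abs_nonneg (ev N hN r z)]
  have h4 : 0 ≤ ‖z‖ ^ 2 := by positivity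
  nlinarith

include hΦ hc in
theorem A1 (z : E2) : Integrable (fun x : Eu (N + 1) => ev N hN ‖x‖ z * Dv N Φ i x) := by
  refine ((S_int N hN hΦ hc i).const_mul (1 + ‖z‖ ^ 2)).mono'
    (((ev_meas N hN z).comp measurable_norm).mul (Dv_cont N hΦ i).measurable).aestronglyMeasurable
    (Eventually.of_forall fun x => ?_)
  rw [Real.norm_eq_abs]
  exact ev_le N hN z _ _

theorem coord_le {n : ℕ} (x : Eu n) (i : Fin n) : |x i| ≤ ‖x‖ := by
  have := PiLp.norm_apply_le x i
  simpa using this

theorem gi_meas (z : E2) : Measurable (fun x : Eu (N + 1) => gradF N z x i) := by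
  have h1 : Measurable (fun y : Eu (N + 1) => y i) := by fun_prop
  exact h1.comp (gradF_meas N z)

theorem gi_memLp (z : E2) : MemLp (fun x : Eu (N + 1) => gradF N z x i) 2 := by
  refine (gradF_memLp N z).mono (gi_meas N i z).aestronglyMeasurable
    (Eventually.of_forall fun x => ?_)
  rw [Real.norm_eq_abs]
  exact coord_le _ _

include hΦ hc in
theorem A2 (z : E2) : Integrable (fun x : Eu (N + 1) => gradF N z x i * Φ x) := by
  have m : MemLp Φ 2 volume := hΦ.continuous.memLp_of_hasCompactSupport hc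
  exact (gi_memLp N i z).integrable_mul m

/-- the functional -/
noncomputable def Lf (N : ℕ) (hN : 2 ≤ N) (Φ : Eu (N + 1) → ℝ) (i : Fin (N + 1)) (z : E2) : ℝ :=
  (∫ x : Eu (N + 1), ev N hN ‖x‖ z * Dv N Φ i x) + ∫ x : Eu (N + 1), gradF N z x i * Φ x

theorem gradF_add (z w : E2) : ∀ᵐ x : Eu (N + 1), gradF N (z + w) x i =
    gradF N z x i + gradF N w x i := by
  have h1 : ∀ᵐ r ∂nu, zd N (z + w) r = zd N z r + zd N w r := by
    filter_upwards [Lp.coeFn_add z w] with r hr
    unfold zd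
    rw [hr, Pi.add_apply]
    ring
  filter_upwards [aeRad N h1] with x hx
  unfold gradF
  simp only [PiLp.smul_apply, smul_eq_mul]
  rw [hx]
  ring

theorem gradF_smul (c : ℝ) (z : E2) : ∀ᵐ x : Eu (N + 1), gradF N (c • z) x i =
    c * gradF N z x i := by
  have h1 : ∀ᵐ r ∂nu, zd N (c • z) r = c * zd N z r := by
    filter_upwards [Lp.coeFn_smul c z] with r hr
    unfold zd
    rw [hr, Pi.smul_apply, smul_eq_mul]
    ring
  filter_upwards [aeRad N h1] with x hx
  unfold gradF
  simp only [PiLp.smul_apply, smul_eq_mul]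
  rw [hx]
  ring

include hΦ hc in
theorem Lf_add (z w : E2) : Lf N hN Φ i (z + w) = Lf N hN Φ i z + Lf N hN Φ i w := by
  unfold Lf
  have e1 : ∫ x : Eu (N + 1), ev N hN ‖x‖ (z + w) * Dv N Φ i x =
      (∫ x : Eu (N + 1), ev N hN ‖x‖ z * Dv N Φ i x) +
        ∫ x : Eu (N + 1), ev N hN ‖x‖ w * Dv N Φ i x := by
    rw [← integral_add (A1 N hN hΦ hc i z) (A1 N hN hΦ hc i w)]
    congr 1
    funext x
    rw [map_add]
    ring
  have e2 : ∫ x : Eu (N + 1), gradF N (z + w) x i * Φ x =
      (∫ x : Eu (N + 1), gradF N z x i * Φ x) + ∫ x : Eu (N + 1), gradF N w x i * Φ x := by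
    rw [← integral_add (A2 N hΦ hc i z) (A2 N hΦ hc i w)]
    apply integral_congr_ae
    filter_upwards [gradF_add N i z w] with x hx
    rw [hx]
    ring
  rw [e1, e2]
  ring

theorem Lf_smul (c : ℝ) (z : E2) : Lf N hN Φ i (c • z) = c * Lf N hN Φ i z := by
  unfold Lf
  have e1 : ∫ x : Eu (N + 1), ev N hN ‖x‖ (c • z) * Dv N Φ i x =
      c * ∫ x : Eu (N + 1), ev N hN ‖x‖ z * Dv N Φ i x := by
    rw [← integral_const_mul]
    congr 1
    funext x
    rw [map_smul, smul_eq_mul]
    ring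
  have e2 : ∫ x : Eu (N + 1), gradF N (c • z) x i * Φ x =
      c * ∫ x : Eu (N + 1), gradF N z x i * Φ x := by
    rw [← integral_const_mul]
    apply integral_congr_ae
    filter_upwards [gradF_smul N i c z] with x hx
    rw [hx]
    ring
  rw [e1, e2]
  ring

include hΦ hc in
theorem Lf_bound : ∃ C : ℝ, ∀ z : E2, ‖z‖ ≤ 1 → |Lf N hN Φ i z| ≤ C := by
  obtain ⟨c, hc0, hcI⟩ := integralRad N
  have hmΦ : MemLp Φ 2 volume := hΦ.continuous.memLp_of_hasCompactSupport hc
  have hΦ2 : Integrable (fun x => (Φ x) ^ 2) := (memLp_two_iff_integrable_sq hmΦ.1).1 hmΦ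
  refine ⟨2 * (∫ x : Eu (N + 1), (1 + Bf N ‖x‖) * |Dv N Φ i x|) + (c + ∫ x, (Φ x) ^ 2), ?_⟩
  intro z hz
  have hz2 : ‖z‖ ^ 2 ≤ 1 := pow_le_one₀ (norm_nonneg _) hz
  have hS := S_int N hN hΦ hc i
  have hS0 : 0 ≤ ∫ x : Eu (N + 1), (1 + Bf N ‖x‖) * |Dv N Φ i x| :=
    integral_nonneg fun x => mul_nonneg (by have := Bf_nonneg N ‖x‖; linarith) (abs_nonneg _)
  unfold Lf
  refine (abs_add_le _ _).trans (add_le_add ?_ ?_)
  · have h1 : |∫ x : Eu (N + 1), ev N hN ‖x‖ z * Dv N Φ i x| ≤
        ∫ x : Eu (N + 1), (1 + ‖z‖ ^ 2) * ((1 + Bf N ‖x‖) * |Dv N Φ i x|) := by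
      rw [← Real.norm_eq_abs]
      exact norm_integral_le_of_norm_le (hS.const_mul _) (Eventually.of_forall fun x => by
        rw [Real.norm_eq_abs]; exact ev_le N hN z _ _)
    rw [integral_const_mul] at h1
    nlinarith
  · have hz1 := zd_int N z
    have h1 : |∫ x : Eu (N + 1), gradF N z x i * Φ x| ≤
        ∫ x : Eu (N + 1), ((zd N z ‖x‖) ^ 2 + (Φ x) ^ 2) := by
      rw [← Real.norm_eq_abs]
      refine norm_integral_le_of_norm_le (hz1.add hΦ2) (Eventually.of_forall fun x => ?_)
      rw [Real.norm_eq_abs, abs_mul]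
      have h2 := (coord_le (gradF N z x) i).trans (gradF_norm N z x)
      have h3 : |gradF N z x i| ^ 2 ≤ (zd N z ‖x‖) ^ 2 := by
        rw [← sq_abs (zd N z ‖x‖)]
        exact pow_le_pow_left₀ (abs_nonneg _) h2 2
      have h4 := sq_abs (Φ x)
      nlinarith [sq_nonneg (|gradF N z x i| - |Φ x|), sq_nonneg (|gradF N z x i|),
        sq_nonneg (|Φ x|)]
    rw [integral_add hz1 hΦ2, hcI (fun r => (zd N z r) ^ 2), integral_congr_ae (zd_sq N z),
      (sq_Lp z).2] at h1
    nlinarith

include hΦ hc in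
/-- continuous linear version -/
theorem exists_Lc : ∃ L : E2 →L[ℝ] ℝ, ∀ z, L z = Lf N hN Φ i z := by
  obtain ⟨C, hC⟩ := Lf_bound N hN hΦ hc i
  let l : E2 →ₗ[ℝ] ℝ :=
    { toFun := Lf N hN Φ i
      map_add' := Lf_add N hN hΦ hc i
      map_smul' := fun c z => Lf_smul N hN i c z }
  have h : ∀ z, ‖l z‖ ≤ C / 1 * ‖z‖ := fun z => l.bound_of_ball_bound' one_pos C (fun z hz => by
    rw [mem_closedBall_zero_iff] at hz
    rw [Real.norm_eq_abs]
    exact hC z hz) z
  exact ⟨l.mkContinuous (C / 1) h, fun z => rfl⟩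

theorem prim {η : ℝ → ℝ} (hη : Continuous η) (hs : HasCompactSupport η) :
    ∃ W : ℝ → ℝ, (∀ r, HasDerivAt W (η r) r) ∧ Tendsto W atTop (𝓝 0) := by
  refine ⟨fun r => (∫ t in (0:ℝ)..r, η t) - ∫ t in Ioi (0:ℝ), η t, ?_, ?_⟩
  · intro r
    have h1 := intervalIntegral.integral_hasDerivAt_right (hη.intervalIntegrable 0 r)
      (hη.stronglyMeasurableAtFilter _ _) hη.continuousAt
    exact h1.sub_const _
  · have h1 : IntegrableOn η (Ioi 0) := (hη.integrable_of_hasCompactSupport hs).integrableOn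
    have h2 := intervalIntegral_tendsto_integral_Ioi (0:ℝ) h1 tendsto_id
    have h3 := h2.sub_const (∫ t in Ioi (0:ℝ), η t)
    rw [sub_self] at h3
    exact h3

include hΦ hc in
/-- the functional vanishes on smooth elements -/
theorem Lf_test {η : ℝ → ℝ} (hη : Continuous η) (hs : HasCompactSupport η)
    (hU : tsupport η ⊆ Ioi 0) {R : ℝ} (hR : ∀ t, R < |t| → η t = 0) :
    Lf N hN Φ i ((bump_memLp N hη hR).toLp _) = 0 := by
  obtain ⟨W, hW, hW0⟩ := prim hη hs
  have h0 : η 0 = 0 := image_eq_zero_of_notMem_tsupport fun h => lt_irrefl (0:ℝ) (hU h)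
  set z : E2 := (bump_memLp N hη hR).toLp _ with hz
  have hpos : ∀ᵐ x : Eu (N + 1), 0 < ‖x‖ := aeRad N (p := fun r => 0 < r) (by
    filter_upwards [ae_restrict_mem measurableSet_Ioi] with r hr
    exact hr)
  have hzd : ∀ᵐ x : Eu (N + 1), zd N z ‖x‖ = η ‖x‖ := by
    apply aeRad N (p := fun r => zd N z r = η r)
    filter_upwards [(bump_memLp N hη hR).coeFn_toLp, ae_restrict_mem measurableSet_Ioi] with r h1 h2
    have hrho := (rho_pos N h2).ne'
    unfold zd
    rw [hz, h1]
    field_simp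
  set V : Eu (N + 1) → ℝ := fun x => W ‖x‖ with hV
  have hVd : ∀ x, HasFDerivAt V ((η ‖x‖ / ‖x‖) • innerSL ℝ x) x := hasFDerivAt_rad hW h0
  have hVe : ∀ x, fderiv ℝ V x (EuclideanSpace.single i 1) = η ‖x‖ / ‖x‖ * x i := by
    intro x
    rw [(hVd x).fderiv]
    simp [EuclideanSpace.inner_single_right]
  have c1 : (fun x : Eu (N + 1) => ev N hN ‖x‖ z * Dv N Φ i x) =ᵐ[volume]
      fun x => V x * fderiv ℝ Φ x (EuclideanSpace.single i 1) := by
    filter_upwards [hpos] with x hx
    rw [hz, ev_deriv N hN W η (fun t _ => hW t) hW0 (bump_memLp N hη hR) ‖x‖ hx]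
    rfl
  have c2 : (fun x : Eu (N + 1) => gradF N z x i * Φ x) =ᵐ[volume]
      fun x => fderiv ℝ V x (EuclideanSpace.single i 1) * Φ x := by
    filter_upwards [hzd] with x hx
    rw [hVe]
    unfold gradF
    simp only [PiLp.smul_apply, smul_eq_mul]
    rw [hx]
  have hVc : Continuous V := continuous_iff_continuousAt.2 fun x => (hVd x).continuousAt
  have hint := integral_mul_fderiv_eq_neg_fderiv_mul_of_integrable (μ := volume) (f := V) (g := Φ)
    (v := EuclideanSpace.single i 1) ((A2 N hΦ hc i z).congr c2) ((A1 N hN hΦ hc i z).congr c1)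
    ((hVc.mul hΦ.continuous).integrable_of_hasCompactSupport hc.mul_left)
    (fun x _ => (hVd x).differentiableAt)
    (fun x _ => (hΦ.differentiable (by simp)) x)
  unfold Lf
  rw [integral_congr_ae c1, integral_congr_ae c2, hint]
  ring

include hΦ hc in
/-- the functional vanishes -/
theorem Lf_zero (z : E2) : Lf N hN Φ i z = 0 := by
  obtain ⟨L, hL⟩ := exists_Lc N hN hΦ hc i
  set l : E2 := (InnerProductSpace.toDual ℝ E2).symm L with hl
  have hLl : ∀ w, L w = inner ℝ l w := by
    intro w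
    rw [hl, InnerProductSpace.toDual_symm_apply]
  have hloc : LocallyIntegrableOn (fun t => rho N t * l t) (Ioi (0:ℝ)) volume := by
    intro x hx
    refine ⟨Ioi 0 ∩ Iio (x + 1), inter_mem self_mem_nhdsWithin
      (mem_nhdsWithin_of_mem_nhds (Iio_mem_nhds (by linarith))), ?_⟩
    have e : Ioi (0:ℝ) ∩ Iio (x + 1) = Iio (x + 1) ∩ Ioi 0 := inter_comm _ _
    have hr : MemLp (rho N) 2 (nu.restrict (Iio (x + 1))) := by
      rw [memLp_two_iff_integrable_sq (rho_meas N).aestronglyMeasurable,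
        Measure.restrict_restrict measurableSet_Iio]
      have hcc : Continuous fun t => rho N t ^ 2 := (rho_cont N).pow 2
      exact (hcc.integrableOn_Icc (a := 0) (b := x + 1)).mono_set
        (fun t ht => ⟨le_of_lt ht.2, le_of_lt ht.1⟩)
    have hlm : MemLp l 2 (nu.restrict (Iio (x + 1))) := (Lp.memLp l).restrict _
    have h1 := hr.integrable_mul hlm
    rw [Measure.restrict_restrict measurableSet_Iio] at h1
    rw [e]
    exact h1
  have hzero := isOpen_Ioi.ae_eq_zero_of_integral_contDiff_smul_eq_zero hloc (by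
    intro η hη hs hU
    obtain ⟨R, hR⟩ := hs.isCompact.isBounded.subset_closedBall (0 : ℝ)
    have hR' : ∀ t, R < |t| → η t = 0 := by
      intro t ht
      apply image_eq_zero_of_notMem_tsupport
      intro hmem
      have := hR hmem
      rw [mem_closedBall_zero_iff, Real.norm_eq_abs] at this
      linarith
    have h1 := Lf_test N hN hΦ hc i hη.continuous hs hU hR'
    rw [← hL, hLl, L2.inner_def] at h1
    have h2 : ∫ t, η t • (rho N t * l t) = ∫ t in Ioi (0:ℝ), η t • (rho N t * l t) := by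
      symm
      apply setIntegral_eq_integral_of_forall_compl_eq_zero
      intro t ht
      have : η t = 0 := image_eq_zero_of_notMem_tsupport fun h => ht (hU h)
      rw [this, zero_smul]
    rw [h2]
    refine Eq.trans ?_ h1
    apply integral_congr_ae
    filter_upwards [(bump_memLp N hη.continuous hR').coeFn_toLp] with t ht
    rw [ht]
    simp only [RCLike.inner_apply, conj_trivial, smul_eq_mul]
    ring)
  have hl0 : l = 0 := by
    rw [Lp.eq_zero_iff_ae_eq_zero]
    show ∀ᵐ t ∂(volume.restrict (Ioi (0:ℝ))), l t = 0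
    rw [ae_restrict_iff' measurableSet_Ioi]
    filter_upwards [hzero] with t ht ht0
    have h1 := ht ht0
    exact (mul_eq_zero.1 h1).resolve_left (rho_pos N ht0).ne'
  rw [← hL, hLl, hl0, inner_zero_left]

end

end Pool.Agent.X282.SW
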