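import Pool.Agent.X282.SW.Abs

/-!
The radial energy space.
-/

set_option autoImplicit false

open MeasureTheory Filter Topology Set

namespace Pool.Agent.X282.SW

/-- Lebesgue measure on the half line -/
noncomputable abbrev nu : Measure ℝ := volume.restrict (Ioi (0 : ℝ))

/-- `L²(0,∞)` -/
abbrev E2 : Type := Lp ℝ 2 nu

/-- the weight -/
noncomputable def om (N : ℕ) (t : ℝ) : ℝ := |t| ^ N

/-- its square root -/
noncomputable def rho (N : ℕ) (t : ℝ) : ℝ := Real.sqrt (om N t)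

theorem om_nonneg (N : ℕ) (t : ℝ) : 0 ≤ om N t := by unfold om; positivity

theorem om_pos (N : ℕ) {t : ℝ} (ht : 0 < t) : 0 < om N t := by
  unfold om
  have : 0 < |t| := abs_pos.2 ht.ne'
  positivity

theorem om_eq (N : ℕ) {t : ℝ} (ht : 0 < t) : om N t = t ^ N := by
  unfold om
  rw [abs_of_pos ht]

theorem om_meas (N : ℕ) : Measurable (om N) := by
  unfold om
  fun_prop

theorem rho_meas (N : ℕ) : Measurable (rho N) := by
  unfold rho
  exact (om_meas N).sqrt

theorem rho_sq (N : ℕ) (t : ℝ) : rho N t * rho N t = om N t :=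
  Real.mul_self_sqrt (om_nonneg N t)

theorem rho_pos (N : ℕ) {t : ℝ} (ht : 0 < t) : 0 < rho N t := Real.sqrt_pos.2 (om_pos N ht)

/-- the kernel -/
noncomputable def ker (N : ℕ) (r t : ℝ) : ℝ := if 0 < r ∧ r < t then -(rho N t)⁻¹ else 0

/-- the bound -/
noncomputable def Bf (N : ℕ) (r : ℝ) : ℝ := if 0 < r then (r ^ (N - 1))⁻¹ else 0

theorem ker_meas (N : ℕ) : Measurable (fun q : ℝ × ℝ => ker N q.1 q.2) := by
  unfold ker
  apply Measurable.ite
  · exact (measurableSet_lt measurable_const measurable_fst).inter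
      (measurableSet_lt measurable_fst measurable_snd)
  · exact (((rho_meas N).comp measurable_snd).inv).neg
  · exact measurable_const

theorem ker_sq (N : ℕ) {r : ℝ} (hr : 0 < r) (t : ℝ) :
    (ker N r t) ^ 2 = (Ioi r).indicator (fun t => t ^ (-(N : ℝ))) t := by
  unfold ker
  by_cases h : r < t
  · have ht : 0 < t := hr.trans h
    rw [if_pos ⟨hr, h⟩, indicator_of_mem (show t ∈ Ioi r from h), neg_sq, inv_pow, sq, rho_sq,
      om_eq N ht, Real.rpow_neg ht.le, Real.rpow_natCast]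
  · rw [if_neg (fun hh => h hh.2), indicator_of_notMem (show t ∉ Ioi r from h)]
    simp

theorem ker_int (N : ℕ) (hN : 2 ≤ N) {r : ℝ} (hr : 0 < r) :
    Integrable (fun t => (ker N r t) ^ 2) nu ∧ ∫ t, (ker N r t) ^ 2 ∂nu ≤ Bf N r := by
  have hN' : (2 : ℝ) ≤ N := by exact_mod_cast hN
  have e : (fun t => (ker N r t) ^ 2) = (Ioi r).indicator (fun t => t ^ (-(N : ℝ))) :=
    funext (ker_sq N hr)
  rw [e]
  have hi := integrableOn_Ioi_rpow_of_lt (a := -(N : ℝ)) (by linarith) hr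
  have hsub : Ioi r ⊆ Ioi (0 : ℝ) := Ioi_subset_Ioi hr.le
  constructor
  · rw [integrable_indicator_iff measurableSet_Ioi, IntegrableOn,
      Measure.restrict_restrict measurableSet_Ioi, inter_eq_left.2 hsub]
    exact hi
  · rw [integral_indicator measurableSet_Ioi, Measure.restrict_restrict measurableSet_Ioi,
      inter_eq_left.2 hsub, integral_Ioi_rpow_of_lt (by linarith) hr]
    unfold Bf
    rw [if_pos hr]
    have e2 : -(N : ℝ) + 1 = -((N - 1 : ℕ) : ℝ) := by
      rw [Nat.cast_sub (by omega)]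
      push_cast
      ring
    have hN1 : (1 : ℝ) ≤ ((N - 1 : ℕ) : ℝ) := by exact_mod_cast (by omega : 1 ≤ N - 1)
    rw [e2, Real.rpow_neg hr.le, Real.rpow_natCast, neg_div_neg_eq]
    exact div_le_self (by positivity) hN1

theorem ker_zero (N : ℕ) {r : ℝ} (hr : ¬ 0 < r) : ker N r = 0 := by
  funext t
  unfold ker
  rw [if_neg (fun hh => hr hh.1)]
  rfl

theorem ker_memLp (N : ℕ) (hN : 2 ≤ N) (r : ℝ) : MemLp (ker N r) 2 nu := by
  by_cases hr : 0 < r
  · rw [memLp_two_iff_integrable_sq]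
    · exact (ker_int N hN hr).1
    · exact ((ker_meas N).comp (measurable_const.prodMk measurable_id)).aestronglyMeasurable
  · rw [ker_zero N hr]
    exact MemLp.zero'

/-- evaluation of the radial function with radial derivative `z / rho` -/
noncomputable def ev (N : ℕ) (hN : 2 ≤ N) (r : ℝ) : E2 →L[ℝ] ℝ :=
  innerSL ℝ ((ker_memLp N hN r).toLp (ker N r))

theorem ev_apply (N : ℕ) (hN : 2 ≤ N) (r : ℝ) (z : E2) :
    ev N hN r z = ∫ t, ker N r t * z t ∂nu := by
  unfold ev
  rw [innerSL_apply_apply, L2.inner_def]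
  apply integral_congr_ae
  filter_upwards [(ker_memLp N hN r).coeFn_toLp] with t ht
  rw [ht]
  simp [mul_comm]

theorem Bf_nonneg (N : ℕ) (r : ℝ) : 0 ≤ Bf N r := by
  unfold Bf
  split_ifs with h
  · positivity
  · exact le_rfl

theorem ev_bd (N : ℕ) (hN : 2 ≤ N) (r : ℝ) (z : E2) : (ev N hN r z) ^ 2 ≤ Bf N r * ‖z‖ ^ 2 := by
  by_cases hr : 0 < r
  · have h1 : |ev N hN r z| ≤ ‖(ker_memLp N hN r).toLp (ker N r)‖ * ‖z‖ := by
      unfold ev
      rw [innerSL_apply_apply]
      exact abs_real_inner_le_norm _ _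
    have h2 : ‖(ker_memLp N hN r).toLp (ker N r)‖ ^ 2 ≤ Bf N r := by
      rw [← real_inner_self_eq_norm_sq, L2.inner_def]
      refine le_trans (le_of_eq ?_) (ker_int N hN hr).2
      apply integral_congr_ae
      filter_upwards [(ker_memLp N hN r).coeFn_toLp] with t ht
      rw [ht]
      simp [sq]
    have h3 : (ev N hN r z) ^ 2 ≤ (‖(ker_memLp N hN r).toLp (ker N r)‖ * ‖z‖) ^ 2 := by
      rw [← sq_abs (ev N hN r z)]
      exact pow_le_pow_left₀ (abs_nonneg _) h1 2
    rw [mul_pow] at h3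
    exact h3.trans (mul_le_mul_of_nonneg_right h2 (by positivity))
  · have : ev N hN r z = 0 := by
      rw [ev_apply, ker_zero N hr]
      simp
    rw [this]
    have := mul_nonneg (Bf_nonneg N r) (sq_nonneg ‖z‖)
    linarith

theorem ev_meas (N : ℕ) (hN : 2 ≤ N) (z : E2) : Measurable (fun r => ev N hN r z) := by
  have h1 : StronglyMeasurable (Function.uncurry fun r t : ℝ => ker N r t * z t) := by
    apply ((ker_meas N).stronglyMeasurable).mul
    exact (Lp.stronglyMeasurable z).comp_measurable measurable_snd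
  have h2 := h1.integral_prod_right (ν := nu)
  have e : (fun r => ev N hN r z) = fun r => ∫ t, ker N r t * z t ∂nu := funext fun r =>
    ev_apply N hN r z
  rw [e]
  exact h2.measurable

/-- the radial energy space: pairs `(rho u', √lam rho u)` -/
noncomputable def Hs (N : ℕ) (hN : 2 ≤ N) (lam : ℝ) : Submodule ℝ (WithLp 2 (E2 × E2)) where
  carrier := {x | (x.snd : ℝ → ℝ) =ᵐ[nu] fun r => Real.sqrt lam * (rho N r * ev N hN r x.fst)}
  add_mem' := by
    intro x y hx hy
    have h1 : ((x + y).snd : ℝ → ℝ) =ᵐ[nu] (x.snd : ℝ → ℝ) + (y.snd : ℝ → ℝ) :=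
      Lp.coeFn_add x.snd y.snd
    show ((x + y).snd : ℝ → ℝ) =ᵐ[nu] _
    filter_upwards [h1, hx, hy] with r h1 h2 h3
    rw [h1, Pi.add_apply, h2, h3]
    have : ev N hN r (x + y).fst = ev N hN r x.fst + ev N hN r y.fst := map_add _ _ _
    rw [this]
    ring
  zero_mem' := by
    show ((0 : WithLp 2 (E2 × E2)).snd : ℝ → ℝ) =ᵐ[nu] _
    have h1 : ((0 : WithLp 2 (E2 × E2)).snd : ℝ → ℝ) =ᵐ[nu] 0 := Lp.coeFn_zero _ _ _
    filter_upwards [h1] with r h1
    have : ev N hN r (0 : WithLp 2 (E2 × E2)).fst = 0 := map_zero _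
    rw [h1, this]
    simp
  smul_mem' := by
    intro c x hx
    have h1 : ((c • x).snd : ℝ → ℝ) =ᵐ[nu] c • (x.snd : ℝ → ℝ) := Lp.coeFn_smul c x.snd
    show ((c • x).snd : ℝ → ℝ) =ᵐ[nu] _
    filter_upwards [h1, hx] with r h1 h2
    rw [h1, Pi.smul_apply, h2]
    have : ev N hN r (c • x).fst = c * ev N hN r x.fst := map_smul _ _ _
    rw [this]
    simp only [smul_eq_mul]
    ring

theorem Hs_closed (N : ℕ) (hN : 2 ≤ N) (lam : ℝ) :
    IsClosed ((Hs N hN lam : Submodule ℝ (WithLp 2 (E2 × E2))) : Set (WithLp 2 (E2 × E2))) := by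
  apply IsSeqClosed.isClosed
  intro x y hx hlim
  have hx : ∀ k, ((x k).snd : ℝ → ℝ) =ᵐ[nu]
    fun r => Real.sqrt lam * (rho N r * ev N hN r (x k).fst) := hx
  show (y.snd : ℝ → ℝ) =ᵐ[nu] fun r => Real.sqrt lam * (rho N r * ev N hN r y.fst)
  have hc : Continuous (WithLp.ofLp : WithLp 2 (E2 × E2) → E2 × E2) :=
    WithLp.prod_continuous_ofLp 2 E2 E2
  have h1 : Tendsto (fun k => (x k).fst) atTop (𝓝 y.fst) :=
    ((continuous_fst.comp hc).tendsto y).comp hlim
  have h2 : Tendsto (fun k => (x k).snd) atTop (𝓝 y.snd) :=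
    ((continuous_snd.comp hc).tendsto y).comp hlim
  have h3 := tendstoInMeasure_of_tendsto_Lp h2
  obtain ⟨ns, hns, hae⟩ := h3.exists_seq_tendsto_ae
  have hall := ae_all_iff.2 hx
  filter_upwards [hae, hall] with r hr1 hr2
  have h4 : Tendsto (fun k => Real.sqrt lam * (rho N r * ev N hN r (x (ns k)).fst)) atTop
      (𝓝 (Real.sqrt lam * (rho N r * ev N hN r y.fst))) := by
    have := (((ev N hN r).continuous.tendsto y.fst).comp h1).comp hns.tendsto_atTop
    exact (this.const_mul _).const_mul _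
  refine tendsto_nhds_unique hr1 (h4.congr fun k => ?_)
  exact (hr2 (ns k)).symm

instance (N : ℕ) (hN : 2 ≤ N) (lam : ℝ) : CompleteSpace (Hs N hN lam) :=
  (Hs_closed N hN lam).completeSpace_coe

instance (N : ℕ) (hN : 2 ≤ N) (lam : ℝ) : TopologicalSpace.SeparableSpace (Hs N hN lam) := by
  have : Fact ((2 : ENNReal) ≠ ⊤) := ⟨by norm_num⟩
  have : SecondCountableTopology (WithLp 2 (E2 × E2)) :=
    (WithLp.prodContinuousLinearEquiv 2 ℝ E2 E2).toHomeomorph.secondCountableTopology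
  infer_instance

/-- the evaluations on the energy space -/
noncomputable def eH (N : ℕ) (hN : 2 ≤ N) (lam : ℝ) (r : ℝ) : Hs N hN lam →L[ℝ] ℝ :=
  (ev N hN r) ∘L (ContinuousLinearMap.fst ℝ E2 E2) ∘L
    ((WithLp.prodContinuousLinearEquiv 2 ℝ E2 E2 : WithLp 2 (E2 × E2) →L[ℝ] E2 × E2)) ∘L
    (Hs N hN lam).subtypeL

theorem eH_apply (N : ℕ) (hN : 2 ≤ N) (lam : ℝ) (r : ℝ) (h : Hs N hN lam) :
    eH N hN lam r h = ev N hN r (h : WithLp 2 (E2 × E2)).fst := rfl

theorem Hs_snd (N : ℕ) (hN : 2 ≤ N) (lam : ℝ) (h : Hs N hN lam) :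
    ((h : WithLp 2 (E2 × E2)).snd : ℝ → ℝ) =ᵐ[nu]
      fun r => Real.sqrt lam * (rho N r * eH N hN lam r h) := h.2

theorem norm_Hs (N : ℕ) (hN : 2 ≤ N) (lam : ℝ) (h : Hs N hN lam) :
    ‖h‖ ^ 2 = ‖(h : WithLp 2 (E2 × E2)).fst‖ ^ 2 + ‖(h : WithLp 2 (E2 × E2)).snd‖ ^ 2 := by
  rw [Submodule.coe_norm, WithLp.prod_norm_sq_eq_of_L2]

theorem sq_Lp (z : E2) : Integrable (fun t => (z t) ^ 2) nu ∧ ∫ t, (z t) ^ 2 ∂nu = ‖z‖ ^ 2 := by
  constructor
  · exact (memLp_two_iff_integrable_sq (Lp.aestronglyMeasurable z)).1 (Lp.memLp z)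
  · rw [← real_inner_self_eq_norm_sq, L2.inner_def]
    congr 1
    funext t
    simp [sq]

theorem eH_sq (N : ℕ) (hN : 2 ≤ N) {lam : ℝ} (hlam : 0 < lam) (h : Hs N hN lam) :
    (fun r => om N r * (eH N hN lam r h) ^ 2) =ᵐ[nu]
      fun r => lam⁻¹ * ((h : WithLp 2 (E2 × E2)).snd r) ^ 2 := by
  filter_upwards [Hs_snd N hN lam h] with r hr
  rw [hr, mul_pow, mul_pow, Real.sq_sqrt hlam.le, sq (rho N r), rho_sq]
  field_simp

/-- smooth radial functions are in the space -/
theorem elem (N : ℕ) (hN : 2 ≤ N) (lam : ℝ) (ψ ψ' : ℝ → ℝ)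
    (h1 : ∀ t, 0 < t → HasDerivAt ψ (ψ' t) t) (h2 : Tendsto ψ atTop (𝓝 0))
    (m1 : MemLp (fun t => rho N t * ψ' t) 2 nu) (m2 : MemLp (fun t => rho N t * ψ t) 2 nu) :
    ∃ h : Hs N hN lam, (∀ r, 0 < r → eH N hN lam r h = ψ r) ∧
      ((h : WithLp 2 (E2 × E2)).fst : ℝ → ℝ) =ᵐ[nu] fun t => rho N t * ψ' t := by
  set z : E2 := m1.toLp _ with hz
  have hzc : (z : ℝ → ℝ) =ᵐ[nu] fun t => rho N t * ψ' t := m1.coeFn_toLp
  have hev : ∀ r, 0 < r → ev N hN r z = ψ r := by
    intro r hr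
    have e1 : ev N hN r z = ∫ t, (Ioi r).indicator (fun t => -ψ' t) t ∂nu := by
      rw [ev_apply]
      apply integral_congr_ae
      filter_upwards [hzc, ae_restrict_mem measurableSet_Ioi] with t ht ht0
      rw [ht]
      unfold ker
      by_cases h : r < t
      · have hrho := rho_pos N ht0
        rw [if_pos ⟨hr, h⟩, indicator_of_mem (show t ∈ Ioi r from h)]
        field_simp
      · rw [if_neg (fun hh => h hh.2), indicator_of_notMem (show t ∉ Ioi r from h)]
        simp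
    have hsub : Ioi r ⊆ Ioi (0 : ℝ) := Ioi_subset_Ioi hr.le
    have hint : IntegrableOn ψ' (Ioi r) := by
      have h3 : Integrable (fun t => ker N r t * (rho N t * ψ' t)) nu :=
        (ker_memLp N hN r).integrable_mul m1
      have h3' : IntegrableOn (fun t => ker N r t * (rho N t * ψ' t)) (Ioi (0 : ℝ)) volume := h3
      have h4 : IntegrableOn (fun t => ker N r t * (rho N t * ψ' t)) (Ioi r) :=
        h3'.mono_set hsub
      refine h4.neg.congr ?_
      filter_upwards [ae_restrict_mem measurableSet_Ioi] with t ht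
      have ht0 : 0 < t := hr.trans ht
      have hrho := rho_pos N ht0
      show -(ker N r t * (rho N t * ψ' t)) = ψ' t
      unfold ker
      rw [if_pos ⟨hr, ht⟩]
      field_simp
    rw [e1, integral_indicator measurableSet_Ioi, Measure.restrict_restrict measurableSet_Ioi,
      inter_eq_left.2 hsub, integral_neg,
      integral_Ioi_of_hasDerivAt_of_tendsto (h1 r hr).continuousAt.continuousWithinAt
        (fun t ht => h1 t (hr.trans ht)) hint h2]
    ring
  set f : E2 := (m2.const_mul (Real.sqrt lam)).toLp _ with hf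
  have hfc : (f : ℝ → ℝ) =ᵐ[nu] fun t => Real.sqrt lam * (rho N t * ψ t) :=
    (m2.const_mul (Real.sqrt lam)).coeFn_toLp
  refine ⟨⟨WithLp.toLp 2 (z, f), ?_⟩, ?_, hzc⟩
  · show (f : ℝ → ℝ) =ᵐ[nu] fun r => Real.sqrt lam * (rho N r * ev N hN r z)
    filter_upwards [hfc, ae_restrict_mem measurableSet_Ioi] with t ht ht0
    rw [ht, hev t ht0]
  · intro r hr
    exact hev r hr

/-- inner product with a smooth radial function -/
theorem inner_elem (N : ℕ) (hN : 2 ≤ N) {lam : ℝ} (hlam : 0 < lam) (h φ : Hs N hN lam)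
    (ψ ψ' : ℝ → ℝ) (e1 : ∀ r, 0 < r → eH N hN lam r φ = ψ r)
    (e2 : ((φ : WithLp 2 (E2 × E2)).fst : ℝ → ℝ) =ᵐ[nu] fun t => rho N t * ψ' t) :
    inner ℝ h φ = (∫ t, (h : WithLp 2 (E2 × E2)).fst t * (rho N t * ψ' t) ∂nu) +
      lam * ∫ t, om N t * (eH N hN lam t h * ψ t) ∂nu := by
  rw [Submodule.coe_inner, WithLp.prod_inner_apply, ← integral_const_mul]
  congr 1
  · rw [L2.inner_def]
    apply integral_congr_ae
    filter_upwards [e2] with t ht
    have : ((WithLp.ofLp (φ : WithLp 2 (E2 × E2))).fst : ℝ → ℝ) t = rho N t * ψ' t := ht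
    rw [this]
    simp [mul_comm]
  · rw [L2.inner_def]
    apply integral_congr_ae
    filter_upwards [Hs_snd N hN lam h, Hs_snd N hN lam φ, ae_restrict_mem measurableSet_Ioi]
      with t h1 h2 ht0
    have h1' : ((WithLp.ofLp (h : WithLp 2 (E2 × E2))).snd : ℝ → ℝ) t =
      Real.sqrt lam * (rho N t * eH N hN lam t h) := h1
    have h2' : ((WithLp.ofLp (φ : WithLp 2 (E2 × E2))).snd : ℝ → ℝ) t =
      Real.sqrt lam * (rho N t * eH N hN lam t φ) := h2
    rw [h1', h2', e1 t ht0, ← rho_sq N t]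
    have hs := Real.mul_self_sqrt hlam.le
    simp only [RCLike.inner_apply, conj_trivial]
    calc Real.sqrt lam * (rho N t * ψ t) * (Real.sqrt lam * (rho N t * eH N hN lam t h))
        = (Real.sqrt lam * Real.sqrt lam) * (rho N t * rho N t * (eH N hN lam t h * ψ t)) := by
          ring
      _ = _ := by rw [hs]

theorem exp_memLp (N : ℕ) : MemLp (fun t => rho N t * Real.exp (-t)) 2 nu := by
  rw [memLp_two_iff_integrable_sq]
  · have h := Real.GammaIntegral_convergent (s := (N : ℝ) + 1) (by positivity)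
    have h2 : IntegrableOn (fun t : ℝ => Real.exp (-t) * t ^ ((N : ℝ) + 1 - 1)) (Ioi 0) := h
    refine h2.mono' ?_ ?_
    · exact (((rho_meas N).mul (Real.measurable_exp.comp measurable_neg)).pow_const 2).aestronglyMeasurable
    · filter_upwards [ae_restrict_mem measurableSet_Ioi] with t ht
      have ht0 : 0 < t := ht
      rw [add_sub_cancel_right, Real.rpow_natCast, mul_pow, sq (rho N t), rho_sq, om_eq N ht0,
        Real.norm_eq_abs, abs_of_nonneg (by positivity), ← Real.exp_nat_mul]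
      have h3 : Real.exp ((2 : ℕ) * -t) ≤ Real.exp (-t) := by
        apply Real.exp_le_exp.2
        push_cast
        linarith
      have h4 : 0 ≤ t ^ N := by positivity
      nlinarith
  · exact ((rho_meas N).mul (Real.measurable_exp.comp measurable_neg)).aestronglyMeasurable

theorem nu_ne : nu ≠ 0 := by
  intro h
  have : nu (Ioi 0) = 0 := by rw [h]; simp
  rw [Measure.restrict_apply_self, Real.volume_Ioi] at this
  exact ENNReal.top_ne_zero this

theorem evH (N : ℕ) (hN : 2 ≤ N) {lam : ℝ} (hlam : 0 < lam) :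
    Ev (Hs N hN lam) nu (om N) (Bf N) (eH N hN lam) lam⁻¹ where
  meas h := by
    simp only [eH_apply]
    exact ev_meas N hN _
  bd r h := by
    rw [eH_apply]
    refine (ev_bd N hN r _).trans ?_
    apply mul_le_mul_of_nonneg_left _ (Bf_nonneg N r)
    rw [norm_Hs]
    have := sq_nonneg ‖(h : WithLp 2 (E2 × E2)).snd‖
    linarith
  int h := by
    refine Integrable.congr ?_ (eH_sq N hN hlam h).symm
    exact (sq_Lp _).1.const_mul _
  le h := by
    rw [integral_congr_ae (eH_sq N hN hlam h), integral_const_mul, (sq_Lp _).2]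
    apply mul_le_mul_of_nonneg_left _ (by positivity)
    rw [norm_Hs]
    have := sq_nonneg ‖(h : WithLp 2 (E2 × E2)).fst‖
    linarith
  nz := by
    obtain ⟨h, h1, -⟩ := elem N hN lam (fun t => Real.exp (-t)) (fun t => -Real.exp (-t))
      (fun t _ => by
        have := (Real.hasDerivAt_exp (-t)).comp t (hasDerivAt_neg t)
        simpa [Function.comp_def] using this)
      (Real.tendsto_exp_neg_atTop_nhds_zero)
      (MemLp.ae_eq (Eventually.of_forall fun t => by simp) (exp_memLp N).neg) (exp_memLp N)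
    refine ⟨(max 1 ‖h‖)⁻¹ • h, ?_, ?_⟩
    · rw [norm_smul, norm_inv, Real.norm_eq_abs, abs_of_pos (by positivity), inv_mul_le_iff₀
        (by positivity), mul_one]
      exact le_max_right _ _
    · filter_upwards [ae_restrict_mem measurableSet_Ioi] with r hr
      rw [map_smul, h1 r hr, smul_eq_mul]
      have : 0 < (max 1 ‖h‖)⁻¹ * Real.exp (-r) := by positivity
      exact this.ne'

theorem tail (N : ℕ) (hN : 2 ≤ N) (ε : ℝ) (hε : 0 < ε) : ∃ A : Set ℝ, MeasurableSet A ∧
      IntegrableOn (fun r => om N r * Bf N r) A nu ∧ ∀ r ∉ A, Bf N r ≤ ε := by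
  set R := max 1 (1 / ε) with hR
  have hR1 : 1 ≤ R := le_max_left _ _
  refine ⟨Iio R, measurableSet_Iio, ?_, ?_⟩
  · rw [IntegrableOn, Measure.restrict_restrict measurableSet_Iio]
    have hBm : Measurable (Bf N) := by
      unfold Bf
      exact Measurable.ite measurableSet_Ioi (by fun_prop) measurable_const
    refine Measure.integrableOn_of_bounded (M := R) ?_ ((om_meas N).mul hBm).aestronglyMeasurable ?_
    · have : Iio R ∩ Ioi 0 = Ioo 0 R := by ext; simp [and_comm]
      rw [this, Real.volume_Ioo]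
      exact ENNReal.ofReal_ne_top
    · filter_upwards [ae_restrict_mem (measurableSet_Iio.inter measurableSet_Ioi)] with t ht
      have ht0 : 0 < t := ht.2
      rw [om_eq N ht0]
      unfold Bf
      rw [if_pos ht0, Real.norm_eq_abs, abs_of_nonneg (by positivity)]
      have e : t ^ N * (t ^ (N - 1))⁻¹ = t := by
        have h1 : t ^ N = t ^ (N - 1) * t := by
          rw [← pow_succ]; congr 1; omega
        rw [h1]
        field_simp
      rw [e]
      exact le_of_lt ht.1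
  · intro r hr
    have hr' : R ≤ r := not_lt.1 hr
    have hr0 : 0 < r := by linarith
    unfold Bf
    rw [if_pos hr0]
    have h1 : r ≤ r ^ (N - 1) := le_self_pow₀ (by linarith) (by omega)
    have h2 : 1 / ε ≤ r ^ (N - 1) := (le_max_right _ _).trans (hr'.trans h1)
    rw [div_le_iff₀ hε] at h2
    rw [inv_le_iff_one_le_mul₀ (by positivity)]
    linarith

/-- the radial solution -/
theorem radial (N : ℕ) (hN : 2 ≤ N) {l₁ l₂ : ℝ} (h₁ : 0 < l₁) (h₂ : 0 < l₂) :
    ∃ (a : Hs N hN l₁) (b : Hs N hN l₂) (m₁ m₂ : ℝ), 0 < m₁ ∧ 0 < m₂ ∧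
      (∀ φ, m₁ * inner ℝ a φ = ∫ r, om N r * (kk (ww (eH N hN l₁) (eH N hN l₂) a b r) *
        (eH N hN l₁ r a * eH N hN l₁ r φ)) ∂nu) ∧
      (∀ φ, m₂ * inner ℝ b φ = ∫ r, om N r * (kk (ww (eH N hN l₁) (eH N hN l₂) a b r) *
        (eH N hN l₂ r b * eH N hN l₂ r φ)) ∂nu) ∧
      (¬ ∀ᵐ r ∂nu, eH N hN l₁ r a = 0) ∧ ¬ ∀ᵐ r ∂nu, eH N hN l₂ r b = 0 := by
  apply main (om_nonneg N) (om_meas N) _ nu_ne (Bf_nonneg N) (tail N hN)
    (by positivity : (0:ℝ) ≤ l₁⁻¹) (by positivity : (0:ℝ) ≤ l₂⁻¹) (evH N hN h₁) (evH N hN h₂)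
  filter_upwards [ae_restrict_mem measurableSet_Ioi] with r hr
  exact om_pos N hr

end Pool.Agent.X282.SW
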