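import Pool.Agent.X282.SW.Rad

/-!
Radial functions on `ℝ^(N+1)`.
-/

set_option autoImplicit false

open MeasureTheory Filter Topology Set Metric

namespace Pool.Agent.X282.SW

/-- Euclidean space -/
abbrev Eu (n : ℕ) : Type := EuclideanSpace ℝ (Fin n)

theorem dimEu (N : ℕ) : Module.finrank ℝ (Eu (N + 1)) - 1 = N := by simp

theorem intRad (N : ℕ) {f : ℝ → ℝ} (hf : Integrable (fun r => om N r * f r) nu) :
    Integrable (fun x : Eu (N + 1) => f ‖x‖) := by
  have h := (integrable_fun_norm_addHaar (volume : Measure (Eu (N + 1))) (f := f)).2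
  apply h
  rw [dimEu]
  refine Integrable.congr hf ?_
  filter_upwards [ae_restrict_mem measurableSet_Ioi] with r hr
  rw [om_eq N hr, smul_eq_mul]

theorem integralRad (N : ℕ) : ∃ c : ℝ, 0 < c ∧ ∀ f : ℝ → ℝ,
    ∫ x : Eu (N + 1), f ‖x‖ = c * ∫ r, om N r * f r ∂nu := by
  refine ⟨Module.finrank ℝ (Eu (N + 1)) * (volume : Measure (Eu (N + 1))).real (ball 0 1), ?_, ?_⟩
  · have h1 : (0 : ℝ) < Module.finrank ℝ (Eu (N + 1)) := by
      exact_mod_cast Module.finrank_pos
    have h2 : 0 < (volume : Measure (Eu (N + 1))).real (ball 0 1) := by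
      rw [Measure.real]
      exact ENNReal.toReal_pos (measure_ball_pos _ _ one_pos).ne' measure_ball_lt_top.ne
    positivity
  · intro f
    have h := integral_fun_norm_addHaar (volume : Measure (Eu (N + 1))) f
    rw [h, dimEu, nsmul_eq_mul, smul_eq_mul, mul_assoc]
    congr 2
    apply integral_congr_ae
    filter_upwards [ae_restrict_mem measurableSet_Ioi] with r hr
    rw [om_eq N hr, smul_eq_mul]

/-- null sets of radii -/
theorem aeRad (N : ℕ) {p : ℝ → Prop} (h : ∀ᵐ r ∂nu, p r) : ∀ᵐ x : Eu (N + 1), p ‖x‖ := by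
  obtain ⟨T, hT1, hT2, hT3⟩ : ∃ T : Set ℝ, MeasurableSet T ∧ nu T = 0 ∧ {r | ¬ p r} ⊆ T :=
    ⟨toMeasurable nu {r | ¬ p r}, measurableSet_toMeasurable _ _,
      by rw [measure_toMeasurable]; exact h, subset_toMeasurable _ _⟩
  have h0 : (fun r => om N r * T.indicator (fun _ => (1:ℝ)) r) =ᵐ[nu] 0 := by
    have : ∀ᵐ r ∂nu, r ∉ T := by
      rw [ae_iff]
      simpa using hT2
    filter_upwards [this] with r hr
    rw [indicator_of_notMem hr, mul_zero]
    rfl
  have hi : Integrable (fun x : Eu (N + 1) => T.indicator (fun _ => (1:ℝ)) ‖x‖) :=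
    intRad N ((integrable_zero _ _ _).congr h0.symm)
  obtain ⟨c, -, hc⟩ := integralRad N
  have h1 : ∫ x : Eu (N + 1), T.indicator (fun _ => (1:ℝ)) ‖x‖ = 0 := by
    rw [hc, integral_eq_zero_of_ae h0, mul_zero]
  rw [integral_eq_zero_iff_of_nonneg (fun x => indicator_nonneg (fun _ _ => zero_le_one) _) hi]
    at h1
  filter_upwards [h1] with x hx
  by_contra hcon
  have h2 : ‖x‖ ∈ T := hT3 hcon
  have h3 : T.indicator (fun _ => (1:ℝ)) ‖x‖ = 1 := indicator_of_mem h2 _
  rw [h3] at hx
  exact one_ne_zero hx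

/-- polar coordinates -/
theorem polar {n : ℕ} (hn : 0 < n) (f : Eu n → ℝ) (hf : Integrable f) :
    ∫ x, f x = ∫ v : sphere (0 : Eu n) 1, (∫ t in Ioi (0 : ℝ), t ^ (n - 1) * f (t • (v : Eu n)))
      ∂(volume : Measure (Eu n)).toSphere := by
  have : Nonempty (Fin n) := ⟨⟨0, hn⟩⟩
  have : Nontrivial (Eu n) := inferInstance
  have hdim : Module.finrank ℝ (Eu n) - 1 = n - 1 := by simp
  set F : sphere (0 : Eu n) 1 × Ioi (0 : ℝ) → ℝ := fun p => f ((p.2 : ℝ) • (p.1 : Eu n)) with hF
  have hcomp : F ∘ (homeomorphUnitSphereProd (Eu n)) =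
      f ∘ ((↑) : ({(0)}ᶜ : Set (Eu n)) → Eu n) := by
    funext y
    have hy : ‖(y : Eu n)‖ ≠ 0 := norm_ne_zero_iff.2 y.2
    have h1 : ((homeomorphUnitSphereProd (Eu n) y).1 : Eu n) = ‖(y : Eu n)‖⁻¹ • (y : Eu n) := by
      simp
    have h2 : ((homeomorphUnitSphereProd (Eu n) y).2 : ℝ) = ‖(y : Eu n)‖ := by simp
    simp only [hF, Function.comp_apply, h1, h2, smul_smul, mul_inv_cancel₀ hy, one_smul]
  have hmp := (volume : Measure (Eu n)).measurePreserving_homeomorphUnitSphereProd
  have hFi : Integrable F ((volume : Measure (Eu n)).toSphere.prod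
      (.volumeIoiPow (Module.finrank ℝ (Eu n) - 1))) := by
    rw [← hmp.integrable_comp_emb (Homeomorph.measurableEmbedding _), hcomp,
      ← integrableOn_iff_comap_subtypeVal (measurableSet_singleton _).compl]
    exact hf.integrableOn
  have hw : (Measure.volumeIoiPow (Module.finrank ℝ (Eu n) - 1)) =
      (Measure.comap ((↑) : Ioi (0 : ℝ) → ℝ) volume).withDensity
        (fun r => ((Real.toNNReal ((r : ℝ) ^ (n - 1)) : NNReal) : ENNReal)) := by
    rw [hdim]; rfl
  have hm : Measurable fun r : Ioi (0 : ℝ) => Real.toNNReal ((r : ℝ) ^ (n - 1)) :=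
    (measurable_subtype_coe.pow_const _).real_toNNReal
  calc ∫ x, f x = ∫ y : ({(0)}ᶜ : Set (Eu n)), f (y : Eu n)
        ∂((volume : Measure (Eu n)).comap ((↑) : ({(0)}ᶜ : Set (Eu n)) → Eu n)) := by
          rw [integral_subtype_comap (measurableSet_singleton _).compl f, restrict_compl_singleton]
      _ = ∫ p, F p ∂((volume : Measure (Eu n)).toSphere.prod
          (.volumeIoiPow (Module.finrank ℝ (Eu n) - 1))) := by
          rw [← hmp.integral_comp (Homeomorph.measurableEmbedding _)]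
          refine integral_congr_ae (Filter.Eventually.of_forall fun y => ?_)
          exact (congrFun hcomp y).symm
      _ = ∫ v : sphere (0 : Eu n) 1, (∫ r : Ioi (0 : ℝ), f ((r : ℝ) • (v : Eu n))
          ∂(Measure.volumeIoiPow (Module.finrank ℝ (Eu n) - 1)))
          ∂(volume : Measure (Eu n)).toSphere := by
          rw [integral_prod _ hFi]
      _ = _ := by
          refine integral_congr_ae (Filter.Eventually.of_forall fun v => ?_)
          simp only
          rw [hw, integral_withDensity_eq_integral_smul hm,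
            integral_subtype_comap measurableSet_Ioi fun r : ℝ => Real.toNNReal (r ^ (n - 1)) •
              f (r • (v : Eu n))]
          refine setIntegral_congr_fun measurableSet_Ioi fun r hr => ?_
          simp only [NNReal.smul_def, smul_eq_mul]
          rw [Real.coe_toNNReal _ (pow_nonneg (le_of_lt hr) _)]

/-- the radial derivative -/
noncomputable def zd (N : ℕ) (z : E2) (r : ℝ) : ℝ := z r / rho N r

theorem zd_meas (N : ℕ) (z : E2) : Measurable (zd N z) :=
  (Lp.stronglyMeasurable z).measurable.div (rho_meas N)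

theorem zd_sq (N : ℕ) (z : E2) :
    (fun r => om N r * (zd N z r) ^ 2) =ᵐ[nu] fun r => (z r) ^ 2 := by
  filter_upwards [ae_restrict_mem measurableSet_Ioi] with r hr
  have h := rho_pos N hr
  unfold zd
  rw [← rho_sq]
  field_simp

theorem zd_int (N : ℕ) (z : E2) : Integrable (fun x : Eu (N + 1) => (zd N z ‖x‖) ^ 2) :=
  intRad N (f := fun r => (zd N z r) ^ 2) ((sq_Lp z).1.congr (zd_sq N z).symm)

theorem zd_memLp (N : ℕ) (z : E2) : MemLp (fun x : Eu (N + 1) => zd N z ‖x‖) 2 := by
  rw [memLp_two_iff_integrable_sq]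
  · exact zd_int N z
  · exact ((zd_meas N z).comp measurable_norm).aestronglyMeasurable

theorem eH_memLp (N : ℕ) (hN : 2 ≤ N) {lam : ℝ} (hlam : 0 < lam) (h : Hs N hN lam) :
    MemLp (fun x : Eu (N + 1) => eH N hN lam ‖x‖ h) 2 := by
  rw [memLp_two_iff_integrable_sq]
  · exact intRad N (f := fun r => (eH N hN lam r h) ^ 2) ((evH N hN hlam).int h)
  · exact (((evH N hN hlam).meas h).comp measurable_norm).aestronglyMeasurable

/-- the gradient field -/
noncomputable def gradF (N : ℕ) (z : E2) (x : Eu (N + 1)) : Eu (N + 1) := (zd N z ‖x‖ / ‖x‖) • x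

theorem gradF_norm (N : ℕ) (z : E2) (x : Eu (N + 1)) : ‖gradF N z x‖ ≤ |zd N z ‖x‖| := by
  unfold gradF
  rw [norm_smul, Real.norm_eq_abs, abs_div, abs_norm]
  by_cases hx : ‖x‖ = 0
  · rw [hx]; simp
  · rw [div_mul_cancel₀ _ hx]

theorem gradF_meas (N : ℕ) (z : E2) : Measurable (gradF N z) := by
  unfold gradF
  exact (((zd_meas N z).comp measurable_norm).div measurable_norm).smul measurable_id

theorem gradF_memLp (N : ℕ) (z : E2) : MemLp (gradF N z) 2 := by
  refine (zd_memLp N z).mono (gradF_meas N z).aestronglyMeasurable (Eventually.of_forall fun x => ?_)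
  rw [Real.norm_eq_abs]
  exact gradF_norm N z x

end Pool.Agent.X282.SW
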