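import Pool.Agent.X282.SW.Tools

/-!
The weak equation on `ℝ^(N+1)` from the radial equation, ray by ray.
-/

set_option autoImplicit false

open MeasureTheory Filter Topology Set Metric
open scoped ContDiff

namespace Pool.Agent.X282.SW

theorem rho_cont (N : ℕ) : Continuous (rho N) := by
  unfold rho om
  fun_prop

theorem bump_memLp (N : ℕ) {f : ℝ → ℝ} (hf : Continuous f) {R : ℝ} (hR : ∀ t, R < |t| → f t = 0) :
    MemLp (fun t => rho N t * f t) 2 nu := by
  have hc : Continuous (fun t => rho N t * f t) := (rho_cont N).mul hf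
  have hs : HasCompactSupport (fun t => rho N t * f t) := by
    apply HasCompactSupport.of_support_subset_isCompact (isCompact_Icc (a := -R) (b := R))
    intro t ht
    by_contra hcon
    apply ht
    have : R < |t| := by
      by_contra h
      push Not at h
      exact hcon (abs_le.1 h)
    show rho N t * f t = 0
    rw [hR t this, mul_zero]
  exact (hc.memLp_of_hasCompactSupport hs).restrict _

theorem memLp_u (N : ℕ) (hN : 2 ≤ N) {lam : ℝ} (hlam : 0 < lam) (h : Hs N hN lam) :
    MemLp (fun t => rho N t * eH N hN lam t h) 2 nu := by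
  rw [memLp_two_iff_integrable_sq]
  · refine ((evH N hN hlam).int h).congr (Eventually.of_forall fun t => ?_)
    show om N t * _ = _
    rw [← rho_sq]
    ring
  · exact ((rho_meas N).mul ((evH N hN hlam).meas h)).aestronglyMeasurable

/-- one ray -/
theorem ray (N : ℕ) (hN : 2 ≤ N) {lam : ℝ} (hlam : 0 < lam) (h : Hs N hN lam) (k : ℝ → ℝ)
    (hk : Measurable k) (hk0 : ∀ r, 0 ≤ k r) (hk1 : ∀ r, k r ≤ 1) {m : ℝ} (hm : 0 < m)
    (hE : ∀ φ : Hs N hN lam, m * inner ℝ h φ =
      ∫ r, om N r * (k r * (eH N hN lam r h * eH N hN lam r φ)) ∂nu)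
    (ψ ψ' : ℝ → ℝ) (h1 : ∀ t, HasDerivAt ψ (ψ' t) t) (hψ' : Continuous ψ') {R : ℝ}
    (hR : ∀ t, R < |t| → ψ t = 0) (hR' : ∀ t, R < |t| → ψ' t = 0) :
    ∫ t, ((h : WithLp 2 (E2 × E2)).fst t * (rho N t * ψ' t) + lam * (om N t * (eH N hN lam t h * ψ t))
      - m⁻¹ * (om N t * (k t * (eH N hN lam t h * ψ t)))) ∂nu = 0 := by
  have hψ : Continuous ψ := continuous_iff_continuousAt.2 fun t => (h1 t).continuousAt
  have m1 := bump_memLp N hψ' hR'
  have m2 := bump_memLp N hψ hR
  have h2 : Tendsto ψ atTop (𝓝 0) := by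
    apply tendsto_const_nhds.congr'
    filter_upwards [eventually_gt_atTop (max R 0)] with t ht
    have h3 := le_max_left R 0
    have h4 := le_max_right R 0
    rw [hR t (by rw [abs_of_pos (by linarith)]; linarith)]
  obtain ⟨φ, e1, e2⟩ := elem N hN lam ψ ψ' (fun t _ => h1 t) h2 m1 m2
  have hin := inner_elem N hN hlam h φ ψ ψ' e1 e2
  have hEφ := hE φ
  have e3 : ∫ r, om N r * (k r * (eH N hN lam r h * eH N hN lam r φ)) ∂nu =
      ∫ r, om N r * (k r * (eH N hN lam r h * ψ r)) ∂nu := by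
    apply integral_congr_ae
    filter_upwards [ae_restrict_mem measurableSet_Ioi] with t ht
    rw [e1 t ht]
  rw [e3, hin] at hEφ
  have mu := memLp_u N hN hlam h
  have i1 : Integrable (fun t => (h : WithLp 2 (E2 × E2)).fst t * (rho N t * ψ' t)) nu :=
    (Lp.memLp _).integrable_mul m1
  have i2 : Integrable (fun t => om N t * (eH N hN lam t h * ψ t)) nu := by
    refine (mu.integrable_mul m2).congr (Eventually.of_forall fun t => ?_)
    show rho N t * eH N hN lam t h * (rho N t * ψ t) = om N t * (eH N hN lam t h * ψ t)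
    rw [← rho_sq]
    ring
  have i3 : Integrable (fun t => om N t * (k t * (eH N hN lam t h * ψ t))) nu := by
    refine i2.norm.mono' ((om_meas N).mul (hk.mul (((evH N hN hlam).meas h).mul
      hψ.measurable))).aestronglyMeasurable (Eventually.of_forall fun t => ?_)
    rw [Real.norm_eq_abs, Real.norm_eq_abs, abs_mul, abs_mul (k t), abs_mul (om N t),
      abs_of_nonneg (om_nonneg N t), abs_of_nonneg (hk0 t)]
    apply mul_le_mul_of_nonneg_left _ (om_nonneg N t)
    have h3 := hk1 t
    have h4 := abs_nonneg (eH N hN lam t h * ψ t)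
    nlinarith
  have i2' : Integrable (fun t => lam * (om N t * (eH N hN lam t h * ψ t))) nu := i2.const_mul _
  have i12 : Integrable (fun t => (h : WithLp 2 (E2 × E2)).fst t * (rho N t * ψ' t) +
      lam * (om N t * (eH N hN lam t h * ψ t))) nu := i1.add i2'
  rw [integral_sub i12 (i3.const_mul _), integral_add i1 i2', integral_const_mul,
    integral_const_mul, ← hEφ]
  field_simp
  ring

theorem weakEq (N : ℕ) (hN : 2 ≤ N) {lam : ℝ} (hlam : 0 < lam) (h : Hs N hN lam) (k : ℝ → ℝ)
    (hk : Measurable k) (hk0 : ∀ r, 0 ≤ k r) (hk1 : ∀ r, k r ≤ 1) {m : ℝ} (hm : 0 < m)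
    (hE : ∀ φ : Hs N hN lam, m * inner ℝ h φ =
      ∫ r, om N r * (k r * (eH N hN lam r h * eH N hN lam r φ)) ∂nu)
    (Φ : Eu (N + 1) → ℝ) (hΦ : ContDiff ℝ ∞ Φ) (hc : HasCompactSupport Φ) :
    ∫ x, (fderiv ℝ Φ x (gradF N (h : WithLp 2 (E2 × E2)).fst x) +
      lam * eH N hN lam ‖x‖ h * Φ x) =
    ∫ x, m⁻¹ * (k ‖x‖ * eH N hN lam ‖x‖ h) * Φ x := by
  have hcont : Continuous Φ := hΦ.continuous
  have hd : Differentiable ℝ Φ := hΦ.differentiable (by simp)
  have hfc : Continuous (fderiv ℝ Φ) := hΦ.continuous_fderiv (by simp)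
  have hfs : HasCompactSupport (fderiv ℝ Φ) := hc.fderiv (𝕜 := ℝ)
  have mΦ : MemLp Φ 2 := hcont.memLp_of_hasCompactSupport hc
  have mf : MemLp (fderiv ℝ Φ) 2 := hfc.memLp_of_hasCompactSupport hfs
  have mu := eH_memLp N hN hlam h
  have mG := gradF_memLp N (h : WithLp 2 (E2 × E2)).fst
  have I1 : Integrable (fun x => fderiv ℝ Φ x (gradF N (h : WithLp 2 (E2 × E2)).fst x)) := by
    have h1 : Integrable (fun x => ‖fderiv ℝ Φ x‖ * ‖gradF N (h : WithLp 2 (E2 × E2)).fst x‖) :=
      mf.norm.integrable_mul mG.norm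
    refine h1.mono' ?_ (Eventually.of_forall fun x => ContinuousLinearMap.le_opNorm _ _)
    have hb : Continuous (fun p : (Eu (N + 1) →L[ℝ] ℝ) × Eu (N + 1) => p.1 p.2) :=
      isBoundedBilinearMap_apply.continuous
    exact hb.comp_aestronglyMeasurable (mf.1.prodMk mG.1)
  have I2 : Integrable (fun x => lam * eH N hN lam ‖x‖ h * Φ x) := by
    have h1 : Integrable (fun x => eH N hN lam ‖x‖ h * Φ x) := mu.integrable_mul mΦ
    refine (h1.const_mul lam).congr (Eventually.of_forall fun x => ?_)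
    simp only
    ring
  have I3 : Integrable (fun x => m⁻¹ * (k ‖x‖ * eH N hN lam ‖x‖ h) * Φ x) := by
    have h1 : Integrable (fun x => eH N hN lam ‖x‖ h * Φ x) := mu.integrable_mul mΦ
    have h2 : Integrable (fun x => k ‖x‖ * (eH N hN lam ‖x‖ h * Φ x)) := by
      refine h1.norm.mono' (((hk.comp measurable_norm).aestronglyMeasurable).mul h1.1)
        (Eventually.of_forall fun x => ?_)
      rw [norm_mul, Real.norm_of_nonneg (hk0 _)]
      have h3 := hk1 ‖x‖
      have h4 := norm_nonneg (eH N hN lam ‖x‖ h * Φ x)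
      nlinarith
    refine (h2.const_mul m⁻¹).congr (Eventually.of_forall fun x => ?_)
    simp only
    ring
  have I12 : Integrable (fun x => fderiv ℝ Φ x (gradF N (h : WithLp 2 (E2 × E2)).fst x) +
      lam * eH N hN lam ‖x‖ h * Φ x) := I1.add I2
  have I123 : Integrable (fun x => (fderiv ℝ Φ x (gradF N (h : WithLp 2 (E2 × E2)).fst x) +
      lam * eH N hN lam ‖x‖ h * Φ x) - m⁻¹ * (k ‖x‖ * eH N hN lam ‖x‖ h) * Φ x) := I12.sub I3
  have hmain : ∫ x, ((fderiv ℝ Φ x (gradF N (h : WithLp 2 (E2 × E2)).fst x) +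
      lam * eH N hN lam ‖x‖ h * Φ x) - m⁻¹ * (k ‖x‖ * eH N hN lam ‖x‖ h) * Φ x) = 0 := by
    rw [polar (Nat.succ_pos N) _ I123]
    apply integral_eq_zero_of_ae
    refine Eventually.of_forall fun v => ?_
    have hv : ‖(v : Eu (N + 1))‖ = 1 := by simp
    obtain ⟨R, hR⟩ := hc.isCompact.isBounded.subset_closedBall (0 : Eu (N + 1))
    have hRΦ : ∀ t : ℝ, R < |t| → (t • (v : Eu (N + 1))) ∉ tsupport Φ := by
      intro t ht hmem
      have := hR hmem
      rw [mem_closedBall_zero_iff, norm_smul, hv, mul_one, Real.norm_eq_abs] at this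
      linarith
    have hz := ray N hN hlam h k hk hk0 hk1 hm hE (fun t => Φ (t • (v : Eu (N + 1))))
      (fun t => fderiv ℝ Φ (t • (v : Eu (N + 1))) v) (fun t => by
        have h1 : HasDerivAt (fun t : ℝ => t • (v : Eu (N + 1))) (v : Eu (N + 1)) t := by
          simpa using (hasDerivAt_id t).smul_const (v : Eu (N + 1))
        exact (hd _).hasFDerivAt.comp_hasDerivAt t h1)
      (by
        have : Continuous fun t : ℝ => fderiv ℝ Φ (t • (v : Eu (N + 1))) := by fun_prop
        exact this.clm_apply continuous_const)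
      (fun t ht => image_eq_zero_of_notMem_tsupport (hRΦ t ht))
      (fun t ht => by
        have h1 : fderiv ℝ Φ (t • (v : Eu (N + 1))) = 0 := by
          have h2 : (t • (v : Eu (N + 1))) ∉ tsupport (fderiv ℝ Φ) := fun hh =>
            hRΦ t ht (tsupport_fderiv_subset ℝ hh)
          exact image_eq_zero_of_notMem_tsupport h2
        show (fderiv ℝ Φ (t • (v : Eu (N + 1)))) v = 0
        rw [h1]
        rfl)
    show ∫ t in Ioi (0 : ℝ), _ = 0
    refine Eq.trans ?_ hz
    apply integral_congr_ae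
    filter_upwards [ae_restrict_mem measurableSet_Ioi] with t ht
    have ht0 : 0 < t := ht
    have hn : ‖t • (v : Eu (N + 1))‖ = t := by
      rw [norm_smul, hv, mul_one, Real.norm_eq_abs, abs_of_pos ht0]
    have hg : gradF N (h : WithLp 2 (E2 × E2)).fst (t • (v : Eu (N + 1))) =
        zd N (h : WithLp 2 (E2 × E2)).fst t • (v : Eu (N + 1)) := by
      unfold gradF
      rw [hn, smul_smul, div_mul_cancel₀ _ ht0.ne']
    rw [hn, hg, map_smul, smul_eq_mul, Nat.succ_sub_one, ← om_eq N ht0]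
    have hrho := (rho_pos N ht0).ne'
    unfold zd
    rw [← rho_sq N t]
    field_simp
  rw [integral_sub I12 I3] at hmain
  linarith

end Pool.Agent.X282.SW
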